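import Pool.Agent.Lib.MP_b9b223_co.Chk

set_option autoImplicit false
set_option maxRecDepth 100000

namespace Pool.Agent.HexCube

noncomputable section

theorem force_eq (n : ℕ) (k : ℕ → Bool) : force n k = k n := by
  cases n <;> rfl

theorem allL_iff {α : Type} (L : List α) (f : α → Bool) : allL L f = true ↔ ∀ a ∈ L, f a = true := by
  induction L with
  | nil => simp [allL]
  | cons a t ih =>
    have : allL (a :: t) f = Bool.rec false (allL t f) (f a) := rfl
    rw [this]
    cases h : f a <;> simp [h, ih]

theorem anyL_iff {α : Type} (L : List α) (f : α → Bool) : anyL L f = true ↔ ∃ a ∈ L, f a = true := by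
  induction L with
  | nil => simp [anyL]
  | cons a t ih =>
    have : anyL (a :: t) f = Bool.rec (anyL t f) true (f a) := rfl
    rw [this]
    cases h : f a <;> simp [h, ih]

theorem allN_imp (lo k : ℕ) (f : ℕ → Bool) (h : allN lo k f = true) :
    ∀ m, lo ≤ m → m < lo + k → f m = true := by
  induction k with
  | zero => intro m h1 h2; omega
  | succ k ih =>
    have e : allN lo (k + 1) f = Bool.rec false (allN lo k f) (force (Nat.add lo k) f) := rfl
    rw [e, force_eq] at h
    cases hf : f (Nat.add lo k) with
    | false => rw [hf] at h; exact absurd h (by simp)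
    | true =>
      rw [hf] at h
      intro m h1 h2
      by_cases hm : m = lo + k
      · rw [hm]; exact hf
      · exact ih h m h1 (by omega)

theorem pairsOK_imp {α : Type} (f : α → α → Bool) (L : List α) (h : pairsOK f L = true) :
    ∀ x ∈ L, ∀ y ∈ L, f x y = true ∨ f y x = true := by
  induction L with
  | nil => simp
  | cons a t ih =>
    have e : pairsOK f (a :: t) = Bool.rec false (pairsOK f t) (allL (a :: t) (f a)) := rfl
    rw [e] at h
    cases ha : allL (a :: t) (f a) with
    | false => rw [ha] at h; exact absurd h (by simp)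
    | true =>
      rw [ha] at h
      rw [allL_iff] at ha
      intro x hx y hy
      rcases List.mem_cons.1 hx with rfl | hx'
      · exact Or.inl (ha y hy)
      · rcases List.mem_cons.1 hy with rfl | hy'
        · exact Or.inr (ha x hx)
        · exact ih h x hx' y hy'

theorem gate_imp {r u : ℕ} {b : Bool} (h : gate r u b = true) (hr : u % 256 ≤ r) : b = true := by
  unfold gate at h
  have : Nat.ble (Nat.mod u 256) r = true := Nat.ble_eq_true_of_le hr
  rw [this] at h
  exact h

/-- read the bits `w e`, `e ∈ L`, as a binary number (least significant first) -/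
def extF (w : ℕ → Bool) : List ℕ → ℕ
  | [] => 0
  | e :: L => (w e).toNat + 2 * extF w L

def cntF (w : ℕ → Bool) : List ℕ → ℕ
  | [] => 0
  | e :: L => (w e).toNat + cntF w L

theorem fld_def (m p q : ℕ) : fld m p q = m / 2 ^ p % q := by
  show (m >>> p) % q = _
  rw [Nat.shiftRight_eq_div_pow]

theorem extF_lt (w : ℕ → Bool) (L : List ℕ) : extF w L < 2 ^ L.length := by
  induction L with
  | nil => simp [extF]
  | cons e t ih =>
    have := Bool.toNat_le (w e)
    simp only [extF, List.length_cons, pow_succ]
    omega

theorem extF_append (w : ℕ → Bool) (L M : List ℕ) :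
    extF w (L ++ M) = extF w L + 2 ^ L.length * extF w M := by
  induction L with
  | nil => simp [extF]
  | cons e t ih => simp only [List.cons_append, extF, ih, List.length_cons, pow_succ]; ring

theorem fld_extF (w : ℕ → Bool) (L : List ℕ) (k : ℕ) (hk : k < L.length) :
    fld (extF w L) k 2 = (w (L.getD k 0)).toNat := by
  induction L generalizing k with
  | nil => simp at hk
  | cons e t ih =>
    have hb := Bool.toNat_le (w e)
    cases k with
    | zero => simp only [fld_def, extF, List.getD_cons_zero]; omega
    | succ k =>
      have := ih k (by simpa using hk)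
      rw [fld_def] at this ⊢
      simp only [extF, List.getD_cons_succ]
      rw [← this, pow_succ, mul_comm (2 ^ k) 2, ← Nat.div_div_eq_div_mul]
      congr 2
      omega

theorem ext_cons (m e : ℕ) (L : List ℕ) : ext m (e :: L) = fld m e 2 + 2 * ext m L := rfl
theorem pop_cons (m e : ℕ) (L : List ℕ) : pop m (e :: L) = fld m e 2 + pop m L := rfl

theorem ext_extF (w : ℕ → Bool) (L D : List ℕ) (h : ∀ d ∈ D, d < L.length) :
    ext (extF w L) D = extF w (D.map fun d => L.getD d 0) := by
  induction D with
  | nil => rfl
  | cons d t ih =>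
    rw [ext_cons, ih (fun x hx => h x (List.mem_cons_of_mem _ hx)), fld_extF w L d (h d (by simp))]
    rfl

theorem pop_extF (w : ℕ → Bool) (L D : List ℕ) (h : ∀ d ∈ D, d < L.length) :
    pop (extF w L) D = cntF w (D.map fun d => L.getD d 0) := by
  induction D with
  | nil => rfl
  | cons d t ih =>
    rw [pop_cons, ih (fun x hx => h x (List.mem_cons_of_mem _ hx)), fld_extF w L d (h d (by simp))]
    rfl

theorem extF_congr (w w' : ℕ → Bool) (p : ℕ → ℕ) (L : List ℕ) (h : ∀ e ∈ L, w' e = w (p e)) :
    extF w' L = extF w (L.map p) := by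
  induction L with
  | nil => rfl
  | cons e t ih =>
    simp only [extF, List.map_cons]
    rw [h e (by simp), ih (fun x hx => h x (List.mem_cons_of_mem _ hx))]

theorem extF_mod (w : ℕ → Bool) (L : List ℕ) (h : 4 ≤ L.length) : extF w L % 16 = extF w (L.take 4) := by
  have h1 := extF_append w (L.take 4) (L.drop 4)
  rw [List.take_append_drop] at h1
  have h2 := extF_lt w (L.take 4)
  have h3 : (L.take 4).length = 4 := by simp [h]
  rw [h3] at h1 h2
  omega

theorem uu_split (a b c : ℕ) (ha : a < 16) (hc : c < 16) :
    uu (a + 16 * (c + 16 * b)) = subC (subB (subA a) b) c := by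
  unfold uu
  have e1 : Nat.mod (a + 16 * (c + 16 * b)) 16 = a := by show _ % 16 = _; omega
  have e2 : Nat.div (a + 16 * (c + 16 * b)) 256 = b := by show _ / 256 = _; omega
  have e3 : fld (a + 16 * (c + 16 * b)) 4 16 = c := by rw [fld_def]; omega
  rw [e1, e2, e3]

theorem uu_extF (w : ℕ → Bool) (La Lc Lb : List ℕ) (ha : La.length = 4) (hc : Lc.length = 4) :
    uu (extF w (La ++ (Lc ++ Lb))) = subC (subB (subA (extF w La)) (extF w Lb)) (extF w Lc) := by
  have h1 := extF_lt w La
  have h2 := extF_lt w Lc
  rw [extF_append, extF_append, ha, hc] at *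
  exact uu_split _ _ _ h1 h2

end

end Pool.Agent.HexCube
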