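import Pool.Agent.Lib.MP_b9b223_co.Data

set_option autoImplicit false
set_option maxRecDepth 100000

namespace Pool.Agent.HexCube

noncomputable section

def fld (m p q : ℕ) : ℕ := Nat.mod (Nat.shiftRight m p) q

def ext (m : ℕ) (L : List ℕ) : ℕ :=
  List.rec 0 (fun e _ r => Nat.add (fld m e 2) (Nat.mul 2 r)) L

def pop (m : ℕ) (L : List ℕ) : ℕ :=
  List.rec 0 (fun e _ r => Nat.add (fld m e 2) r) L

def force (n : ℕ) (k : ℕ → Bool) : Bool := Nat.rec (k 0) (fun m _ => k (Nat.succ m)) n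

def allL {α : Type} (L : List α) (f : α → Bool) : Bool :=
  List.rec true (fun a _ r => Bool.rec false r (f a)) L

def P2460 : ℕ := Nat.pow 2 2460

def kr (row col : ℕ) : ℕ := fld (fld KT row P2460) col 1048576

def kk (u v p q : ℕ) : ℕ := kr (fld u p 1048576) (fld v q 4096)

def P200 : ℕ := Nat.pow 2 200
def P3200 : ℕ := Nat.pow 2 3200
def P51200 : ℕ := Nat.pow 2 51200

def subA (a : ℕ) : ℕ := fld UT (Nat.mul 51200 a) P51200
def subB (t b : ℕ) : ℕ := fld t (Nat.mul 3200 b) P3200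
def subC (t c : ℕ) : ℕ := fld t (Nat.mul 200 c) P200

/-- continue only if the rank of `u` is at most `r` -/
def gate (r u : ℕ) (b : Bool) : Bool := Bool.rec true b (Nat.ble (Nat.mod u 256) r)

def lev3 (r uA uB u20 u10 u00 t21 t11 t01 c0 c1 c2 s c3 : ℕ) : Bool :=
  force (subC t21 (Nat.add c1 (Nat.add (Nat.mul 4 c2) (Nat.mul 8 c3)))) fun u21 => gate r u21
  (force (subC t11 (Nat.add (Nat.div c0 4) (Nat.add (Nat.mul 4 c2) (Nat.mul 8 c3)))) fun u11 => gate r u11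
  (force (subC t01 (Nat.add (Nat.add (fld c0 1 2) (Nat.mul 2 (Nat.div c0 8)))
      (Nat.add (Nat.mul 4 (Nat.div c1 2)) (Nat.mul 8 c3)))) fun u01 => gate r u01
  (Nat.ble (Nat.add (Nat.add s (Nat.mul 98304 c3)) (Nat.add (kk u11 u21 104 124) (Nat.add (kk u01 u21 104 60) (Nat.add (kk u21 uA 136 188) (Nat.add (kk u21 uB 168 188) (Nat.add (kk u10 u21 104 92) (Nat.add (kk u00 u21 104 28) (Nat.add (kk u01 u11 40 60) (Nat.add (kk u11 uA 136 124) (Nat.add (kk u11 uB 168 124) (Nat.add (kk u11 u20 72 124) (Nat.add (kk u00 u11 40 28) (Nat.add (kk u01 uA 136 60) (Nat.add (kk u01 uB 168 60) (Nat.add (kk u01 u20 72 60) (kk u01 u10 8 60)))))))))))))))) 13672560)))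

def lev2 (r uA uB u20 u10 t00 t21 t11 t01 c0 c1 s c2 : ℕ) : Bool :=
  force (subC t00 (Nat.add (Nat.add (Nat.mod c0 2) (Nat.mul 2 (fld c0 2 2)))
      (Nat.add (Nat.mul 4 (Nat.mod c1 2)) (Nat.mul 8 c2)))) fun u00 => gate r u00
  (force (Nat.add (Nat.add s (Nat.mul 98304 c2)) (Nat.add (kk u00 uA 136 28) (Nat.add (kk u00 uB 168 28) (Nat.add (kk u00 u20 72 28) (kk u00 u10 8 28))))) fun s2 =>
    allL [0, 1] (lev3 r uA uB u20 u10 u00 t21 t11 t01 c0 c1 c2 s2))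

def lev1 (r uA uB u20 t10 t00 t21 t11 t01 c0 s c1 : ℕ) : Bool :=
  force (subC t10 (Nat.add (Nat.mod c0 4) (Nat.mul 4 c1))) fun u10 => gate r u10
  (force (Nat.add (Nat.add s (Nat.mul 98304 (pop c1 [0, 1]))) (Nat.add (kk u10 uA 136 92) (Nat.add (kk u10 uB 168 92) (kk u10 u20 72 92)))) fun s1 =>
    allL [0, 1] (lev2 r uA uB u20 u10 t00 t21 t11 t01 c0 c1 s1))

def lev0 (r uA uB t20 t10 t00 t21 t11 t01 s c0 : ℕ) : Bool :=
  force (subC t20 c0) fun u20 => gate r u20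
  (force (Nat.add (Nat.add s (Nat.mul 98304 (pop c0 [0, 1, 2, 3]))) (Nat.add (kk u20 uA 136 156) (kk u20 uB 168 156))) fun s0 =>
    allL [0, 1, 2, 3] (lev1 r uA uB u20 t10 t00 t21 t11 t01 c0 s0))

def R12 : List ℕ := [0, 1, 2, 3, 4, 5, 6, 7, 8, 9, 10, 11]
def R16 : List ℕ := [0, 1, 2, 3, 4, 5, 6, 7, 8, 9, 10, 11, 12, 13, 14, 15]

def levB (r uA a20 a10 a00 a21 a11 a01 s : ℕ) (p : ℕ × ℕ) : Bool :=
  force p.1 fun B => force p.2 fun uB => gate r uB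
  (force (subB a20 (ext B [0, 1, 2, 3])) fun t20 =>
   force (subB a10 (ext B [0, 8, 4, 5])) fun t10 =>
   force (subB a00 (ext B [2, 10, 4, 6])) fun t00 =>
   force (subB a21 (ext B [8, 9, 10, 11])) fun t21 =>
   force (subB a11 (ext B [1, 9, 6, 7])) fun t11 =>
   force (subB a01 (ext B [3, 11, 5, 7])) fun t01 =>
   force (Nat.add s (Nat.mul 98304 (pop B R12))) fun s' =>
   allL R16 (lev0 r uA uB t20 t10 t00 t21 t11 t01 s'))

def chk (p : ℕ × ℕ) (Bs : List (ℕ × ℕ)) : Bool :=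
  force p.1 fun A => force p.2 fun uA => force (Nat.mod uA 256) fun r =>
  force (subA (ext A [0, 1, 2, 3])) fun a20 =>
  force (subA (ext A [0, 8, 4, 5])) fun a10 =>
  force (subA (ext A [2, 10, 4, 6])) fun a00 =>
  force (subA (ext A [8, 9, 10, 11])) fun a21 =>
  force (subA (ext A [1, 9, 6, 7])) fun a11 =>
  force (subA (ext A [3, 11, 5, 7])) fun a01 =>
  force (Nat.mul 98304 (pop A R12)) fun s =>
  allL Bs (levB r uA a20 a10 a00 a21 a11 a01 s)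

def job (j : ℕ × ℕ) : Bool := chk (reps.getD j.1 (0, 0)) (pieces.getD j.2 [])

def uu (F : ℕ) : ℕ := subC (subB (subA (Nat.mod F 16)) (Nat.div F 256)) (fld F 4 16)

def rk (F : ℕ) : ℕ := Nat.mod (uu F) 256

def rowF (F : ℕ) : ℕ := fld (uu F) 136 1048576
def colF (F : ℕ) : ℕ := fld (uu F) 156 4096

def anyL {α : Type} (L : List α) (f : α → Bool) : Bool :=
  List.rec false (fun a _ r => Bool.rec r true (f a)) L

/-- `f` holds on `lo, ..., lo + k - 1` -/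
def allN (lo k : ℕ) (f : ℕ → Bool) : Bool :=
  Nat.rec true (fun m r => Bool.rec false r (force (Nat.add lo m) f)) k

def DL : List (List ℕ) := [[2, 10, 4, 6, 0, 1, 8, 9, 3, 11, 5, 7], [3, 11, 5, 7, 0, 1, 8, 9, 2, 10, 4, 6],
  [0, 8, 4, 5, 2, 3, 10, 11, 1, 9, 6, 7], [1, 9, 6, 7, 2, 3, 10, 11, 0, 8, 4, 5],
  [0, 1, 2, 3, 4, 5, 6, 7, 8, 9, 10, 11], [8, 9, 10, 11, 4, 5, 6, 7, 0, 1, 2, 3]]

def G0 : List ℕ := [0, 1, 3, 2, 5, 4, 7, 6, 8, 9, 11, 10]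
def G1 : List ℕ := [2, 3, 0, 1, 4, 6, 5, 7, 10, 11, 8, 9]
def G2 : List ℕ := [0, 8, 4, 5, 2, 3, 10, 11, 1, 9, 6, 7]

def forb : List (List ℕ) := [[1, 2, 3], [0, 2, 3], [0, 1, 3], [0, 1, 2], [9, 10, 11], [8, 10, 11], [8, 9, 11],
  [8, 9, 10], [4, 5, 8], [0, 4, 5], [0, 5, 8], [0, 4, 8], [6, 7, 9], [1, 6, 7], [1, 7, 9], [1, 6, 9],
  [4, 6, 10], [2, 4, 6], [2, 6, 10], [2, 4, 10], [5, 7, 11], [3, 5, 7], [3, 7, 11], [3, 5, 11],
  [1, 3, 5, 6, 8, 10], [1, 2, 4, 7, 8, 11], [0, 3, 4, 7, 9, 10], [0, 2, 5, 6, 9, 11]]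

def nu (F : ℕ) : ℕ := fld NUT (Nat.mul 4 F) 16

def vecsOf (b : ℕ) : List (ℕ × ℕ × ℕ × List ℕ) := [vecs0, vecs1, vecs2, vecs3].getD b []
def lenOf (b : ℕ) : ℕ := [20, 39, 24, 15].getD b 0
def bsig (s : ℕ) : ℕ := [1, 2, 2, 0, 2, 3, 3, 0, 2, 3, 3, 0, 0, 0, 0, 0].getD s 0

/-- per-pattern table facts -/
def okF (F : ℕ) : Bool :=
  force (rk F) fun r =>
  Nat.beq (rk (ext F G0)) r && Nat.beq (rk (ext F G1)) r && Nat.beq (rk (ext F G2)) r &&
  Bool.rec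
    (anyL forb fun s => allL s fun e => Nat.beq (fld F e 2) 1)
    (force (uu F) fun u =>
      Nat.ble r 34 &&
      (allL [0, 1, 2, 3, 4, 5] fun ps => force (ext F (DL.getD ps [])) fun G =>
        Nat.ble (rk G) 62 && Nat.beq (fld u (Nat.add 8 (Nat.mul 32 ps)) 1048576) (rowF G) &&
          Nat.beq (fld u (Nat.add 28 (Nat.mul 32 ps)) 4096) (colF G)) &&
      (anyL R16 fun k => anyL (pieces.getD k []) fun p => Nat.beq p.1 F && Nat.beq p.2 u) &&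
      ((Nat.beq (reps.getD r (0, 0)).1 F && Nat.beq (reps.getD r (0, 0)).2 u) ||
        Nat.blt (nu (ext F G0)) (nu F) || Nat.blt (nu (ext F G1)) (nu F) || Nat.blt (nu (ext F G2)) (nu F)) &&
      (force (rowF F) fun a => force (colF F) fun b =>
        (anyL (vecsOf (bsig (Nat.mod F 16))) fun x => Nat.beq x.1 a && Nat.beq x.2.1 b) &&
        (anyL (quads.getD (Nat.mod F 16) []) fun x => Nat.beq x.1 a && Nat.beq x.2.1 b &&
          Nat.beq x.2.2.1 (rowF (ext F G0)) && Nat.beq x.2.2.2.1 (colF (ext F G0)) &&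
          Nat.beq x.2.2.2.2.1 (rowF (ext F G1)) && Nat.beq x.2.2.2.2.2 (colF (ext F G1)))))
    (Nat.ble r 62)

def dot (v : List ℕ) : List ℕ → ℕ :=
  List.rec (fun _ => 0) (fun a _ r l => List.casesOn l 0 (fun b l' => Nat.add (Nat.mul a b) (r l'))) v

def okP (r : ℕ) (x y : ℕ × ℕ × ℕ × List ℕ) : Bool :=
  force (kr x.1 y.2.1) fun k => Nat.beq k (kr y.1 x.2.1) &&
    Nat.ble (Nat.add (dot x.2.2.2 y.2.2.2) (Nat.mul 1048576 (Nat.add (Nat.mul r 1048576) 524288)))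
      (Nat.mul 1048576 (Nat.add k (Nat.add x.2.2.1 y.2.2.1)))

def pairsOK {α : Type} (f : α → α → Bool) (L : List α) : Bool :=
  List.rec true (fun a t r => Bool.rec false r (allL (a :: t) (f a))) L

def okB (b : ℕ) : Bool :=
  (allL (vecsOf b) fun x => Nat.beq x.2.2.2.length (lenOf b) && Nat.beq x.2.2.2.sum x.2.2.1) &&
    pairsOK (okP (lenOf b)) (vecsOf b)

def okQ (x y : ℕ × ℕ × ℕ × ℕ × ℕ × ℕ) : Bool :=
  force (kr x.1 y.2.1) fun k => Nat.beq k (kr x.2.2.1 y.2.2.2.1) && Nat.beq k (kr x.2.2.2.2.1 y.2.2.2.2.2)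

def okS (s : ℕ) : Bool := allL (quads.getD s []) fun x => allL (quads.getD s []) (okQ x)

end

end Pool.Agent.HexCube
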