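import Pool.Agent.Lib.MP_b9b223_co.Inv

set_option autoImplicit false
set_option maxRecDepth 100000
set_option linter.unusedSimpArgs false

namespace Pool.Agent.HexCube

noncomputable section
open Classical

variable {n : ℕ}

def flp (i : Fin n) (x : Fin n → Bool) : Fin n → Bool := fun s => if s = i then !(x s) else x s

theorem flp_flp (i : Fin n) (x : Fin n → Bool) : flp i (flp i x) = x := by
  funext s; by_cases h : s = i <;> simp [flp, h]

theorem flp_comm (i j : Fin n) (x : Fin n → Bool) : flp i (flp j x) = flp j (flp i x) := by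
  funext s; by_cases h : s = i <;> by_cases h' : s = j <;> simp only [flp, h, h', if_true, if_false] <;>
    split_ifs <;> simp_all

def tg (b : Bool) (i : Fin n) (x : Fin n → Bool) : Fin n → Bool := bif b then flp i x else x

theorem tg_comm (b c : Bool) (i j : Fin n) (x : Fin n → Bool) : tg b i (tg c j x) = tg c j (tg b i x) := by
  cases b <;> cases c <;> simp [tg, flp_comm i j]

theorem tg_flp (b : Bool) (i j : Fin n) (x : Fin n → Bool) : tg b i (flp j x) = flp j (tg b i x) := by
  cases b <;> simp [tg, flp_comm i j]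

theorem tg_not (b : Bool) (i : Fin n) (x : Fin n → Bool) : tg b i (flp i x) = tg (!b) i x := by
  cases b <;> simp [tg, flp_flp]

def E (H : SimpleGraph (Fin n → Bool)) (i : Fin n) (x : Fin n → Bool) : Bool := decide (H.Adj x (flp i x))

theorem E_tg (H : SimpleGraph (Fin n → Bool)) (b : Bool) (i : Fin n) (x : Fin n → Bool) :
    E H i (tg b i x) = E H i x := by
  cases b
  · rfl
  · simp only [tg, cond_true, E, flp_flp, H.adj_comm]

abbrev Tau (n : ℕ) := (Fin n → Bool) × Fin n × Fin n × Fin n × Fin n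

def dr (t : Tau n) : ℕ → Fin n
  | 0 => t.2.1
  | 1 => t.2.2.1
  | 2 => t.2.2.2.1
  | _ => t.2.2.2.2

def WW (H : SimpleGraph (Fin n → Bool)) (t : Tau n) (d : ℕ) (b0 b1 b2 b3 : Bool) : Bool :=
  E H (dr t d) (tg b0 t.2.1 (tg b1 t.2.2.1 (tg b2 t.2.2.2.1 (tg b3 t.2.2.2.2 t.1))))

def bt (e r : ℕ) : Bool := Nat.beq (EV.getD e 0 / 2 ^ r % 2) 1

def ww (H : SimpleGraph (Fin n → Bool)) (t : Tau n) (e : ℕ) : Bool :=
  WW H t (ED.getD e 0) (bt e 0) (bt e 1) (bt e 2) (bt e 3)

def gen : ℕ → Tau n → Tau n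
  | 0, t => (flp t.2.1 t.1, t.2)
  | 1, t => (t.1, t.2.2.1, t.2.1, t.2.2.2)
  | 2, t => (t.1, t.2.1, t.2.2.2.1, t.2.2.1, t.2.2.2.2)
  | _, t => (t.1, t.2.1, t.2.2.1, t.2.2.2.2, t.2.2.2.1)

theorem gen_inv (k : ℕ) : Function.Involutive (gen k : Tau n → Tau n) := by
  intro t
  match k with
  | 0 => simp [gen, flp_flp]
  | 1 => rfl
  | 2 => rfl
  | _ + 3 => rfl

theorem sum_gen (k : ℕ) (f : Tau n → ℤ) : ∑ t, f (gen k t) = ∑ t, f t :=
  Equiv.sum_comp (gen_inv k).toPerm f

def sw (k d : ℕ) : ℕ := if d + 1 = k then k else if d = k then d - 1 else d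

theorem dfacts : ∀ e < 32, ED.getD e 0 < 4 ∧
    (ED.getD (pg 0 e) 0 = ED.getD e 0 ∧ (ED.getD e 0 = 0 ∨ bt (pg 0 e) 0 = !bt e 0) ∧
      bt (pg 0 e) 1 = bt e 1 ∧ bt (pg 0 e) 2 = bt e 2 ∧ bt (pg 0 e) 3 = bt e 3) ∧
    (ED.getD (pg 1 e) 0 = sw 1 (ED.getD e 0) ∧ bt (pg 1 e) 0 = bt e 1 ∧
      bt (pg 1 e) 1 = bt e 0 ∧ bt (pg 1 e) 2 = bt e 2 ∧ bt (pg 1 e) 3 = bt e 3) ∧
    (ED.getD (pg 2 e) 0 = sw 2 (ED.getD e 0) ∧ bt (pg 2 e) 0 = bt e 0 ∧
      bt (pg 2 e) 1 = bt e 2 ∧ bt (pg 2 e) 2 = bt e 1 ∧ bt (pg 2 e) 3 = bt e 3) ∧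
    (ED.getD (pg 3 e) 0 = sw 3 (ED.getD e 0) ∧ bt (pg 3 e) 0 = bt e 0 ∧
      bt (pg 3 e) 1 = bt e 1 ∧ bt (pg 3 e) 2 = bt e 3 ∧ bt (pg 3 e) 3 = bt e 2) := by decide +kernel

theorem ww_gen (H : SimpleGraph (Fin n → Bool)) (k : ℕ) (hk : k < 4) (t : Tau n) (e : ℕ) (he : e < 32) :
    ww H (gen k t) e = ww H t (pg k e) := by
  obtain ⟨h4, ⟨a1, a2, a3, a4, a5⟩, ⟨b1, b2, b3, b4, b5⟩, ⟨c1, c2, c3, c4, c5⟩, ⟨d1, d2, d3, d4, d5⟩⟩ :=
    dfacts e he
  obtain ⟨x, p, q, r, s⟩ := t
  unfold ww
  interval_cases k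
  · rw [a1, a3, a4, a5]
    have hd : dr (gen 0 (x, p, q, r, s)) (ED.getD e 0) = dr (x, p, q, r, s) (ED.getD e 0) := by
      generalize ED.getD e 0 = d at *
      interval_cases d <;> rfl
    unfold WW
    rw [hd]
    simp only [gen, tg_flp _ _ p]
    rw [← tg_flp, tg_not]
    rcases a2 with h | h
    · rw [h]
      simp only [dr, E_tg]
    · rw [h]
  · rw [b1, b2, b3, b4, b5]
    have hd : dr (gen 1 (x, p, q, r, s)) (ED.getD e 0) = dr (x, p, q, r, s) (sw 1 (ED.getD e 0)) := by
      generalize ED.getD e 0 = d at *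
      interval_cases d <;> rfl
    unfold WW
    rw [hd]
    simp only [gen]
    rw [tg_comm]
  · rw [c1, c2, c3, c4, c5]
    have hd : dr (gen 2 (x, p, q, r, s)) (ED.getD e 0) = dr (x, p, q, r, s) (sw 2 (ED.getD e 0)) := by
      generalize ED.getD e 0 = d at *
      interval_cases d <;> rfl
    unfold WW
    rw [hd]
    simp only [gen]
    rw [tg_comm (bt e 1)]
  · rw [d1, d2, d3, d4, d5]
    have hd : dr (gen 3 (x, p, q, r, s)) (ED.getD e 0) = dr (x, p, q, r, s) (sw 3 (ED.getD e 0)) := by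
      generalize ED.getD e 0 = d at *
      interval_cases d <;> rfl
    unfold WW
    rw [hd]
    simp only [gen]
    rw [tg_comm (bt e 2)]

def act : List ℕ → Tau n → Tau n
  | [], t => t
  | k :: W, t => gen k (act W t)

theorem sum_act (W : List ℕ) (f : Tau n → ℤ) : ∑ t, f (act W t) = ∑ t, f t := by
  induction W generalizing f with
  | nil => rfl
  | cons k W ih => rw [← sum_gen k f, ← ih (fun t => f (gen k t))]; rfl

theorem ww_act (H : SimpleGraph (Fin n → Bool)) (W : List ℕ) (hW : ∀ k ∈ W, k < 4) (t : Tau n) (e : ℕ)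
    (he : e < 32) : ww H (act W t) e = ww H t (pw W e) := by
  induction W generalizing e with
  | nil => rfl
  | cons k W ih =>
    have hk := hW k (by simp)
    rw [act, ww_gen H k hk _ e he, ih (fun j hj => hW j (List.mem_cons_of_mem _ hj)) _ (pg_lt k hk e he).1]
    rfl

theorem WT_rel : ∀ i < 24, (∀ k ∈ WT.getD i [], k < 4) ∧ (tA 20).map (pw (WT.getD i [])) = tA i ∧
    (tB 20).map (pw (WT.getD i [])) = tB i := by decide +kernel

theorem WE_rel : ∀ e < 32, (∀ k ∈ WE.getD e [], k < 4) ∧ pw (WE.getD e []) 0 = e := by decide +kernel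

theorem WB_lt : (∀ W ∈ WB, ∀ k ∈ W, k < 4) ∧ WB.length = 127 := by decide +kernel

theorem sum_term20 (H : SimpleGraph (Fin n → Bool)) : 0 ≤ ∑ t : Tau n, term (ww H t) 20 := by
  simp only [Fintype.sum_prod_type]
  refine Finset.sum_nonneg fun x _ => Finset.sum_nonneg fun p _ => Finset.sum_nonneg fun q _ => ?_
  have := Kz_psd (fun k : Fin n => extF (ww H (x, p, q, k, k)) (tB 20))
    (extF (ww H (x, p, q, p, p)) [0, 1, 2, 3]) (fun k => extF_lt _ _) (fun k => by
      rw [extF_mod _ _ (by decide)]; rfl)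
  rw [Finset.sum_comm] at this
  exact this

theorem sum_term (H : SimpleGraph (Fin n → Bool)) (i : ℕ) (hi : i < 24) :
    0 ≤ ∑ t : Tau n, term (ww H t) i := by
  obtain ⟨h1, h2, h3⟩ := WT_rel i hi
  obtain ⟨-, -, -, a4, a5⟩ := t_facts 20 (by norm_num)
  have := sum_term20 H
  rw [← sum_act (WT.getD i [])] at this
  refine this.trans (le_of_eq (Finset.sum_congr rfl fun t _ => ?_))
  rw [term_def, term_def,
    extF_congr (ww H t) _ (pw (WT.getD i [])) _ (fun e he => ww_act H _ h1 t e (a4 e he)),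
    extF_congr (ww H t) _ (pw (WT.getD i [])) _ (fun e he => ww_act H _ h1 t e (a5 e he)), h2, h3]

theorem sum_edge (H : SimpleGraph (Fin n → Bool)) (e : ℕ) (he : e < 32) :
    ∑ t : Tau n, ((ww H t e).toNat : ℤ) = n ^ 3 * ∑ x, ∑ i, ((E H i x).toNat : ℤ) := by
  obtain ⟨h1, h2⟩ := WE_rel e he
  have e1 : ∑ t : Tau n, ((ww H t e).toNat : ℤ) = ∑ t : Tau n, ((ww H t 0).toNat : ℤ) := by
    rw [← sum_act (WE.getD e []) (fun t => ((ww H t 0).toNat : ℤ))]
    refine Finset.sum_congr rfl fun t _ => ?_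
    rw [ww_act H _ h1 t 0 (by norm_num), h2]
  have e2 : ∀ t : Tau n, ww H t 0 = E H t.2.1 t.1 := fun t => rfl
  rw [e1]
  simp only [e2, Fintype.sum_prod_type, Finset.sum_const, Finset.card_univ, Fintype.card_prod,
    Fintype.card_fin, nsmul_eq_mul, Finset.mul_sum]
  refine Finset.sum_congr rfl fun x _ => Finset.sum_congr rfl fun i _ => ?_
  push_cast; ring

theorem deg_sum (H : SimpleGraph (Fin n → Bool))
    (hH : H ≤ SimpleGraph.fromRel (fun x y : Fin n → Bool => hammingDist x y = 1)) :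
    2 * (H.edgeSet.ncard : ℤ) ≤ ∑ x, ∑ i, ((E H i x).toNat : ℤ) := by
  have h1 := H.sum_degrees_eq_twice_card_edges
  have h2 : H.edgeSet.ncard = H.edgeFinset.card := by
    rw [SimpleGraph.edgeFinset, Set.ncard_eq_toFinset_card']
  have h3 : ∀ x, (H.degree x : ℤ) ≤ ∑ i, ((E H i x).toNat : ℤ) := by
    intro x
    have s1 : H.neighborFinset x ⊆ (Finset.univ.filter fun i => E H i x = true).image fun i => flp i x := by
      intro y hy
      have ha : H.Adj x y := by simpa using hy
      have hd : hammingDist x y = 1 := by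
        rcases ((SimpleGraph.fromRel_adj _ _ _).1 (hH ha)).2 with h | h
        · exact h
        · rwa [hammingDist_comm]
      obtain ⟨i, hi⟩ := Finset.card_eq_one.1 hd
      have hy : y = flp i x := by
        funext s
        have hs : x s ≠ y s ↔ s = i := by
          rw [← Finset.mem_singleton, ← hi]; simp
        by_cases h : s = i
        · have := hs.2 h
          simp only [flp, if_pos h]
          revert this
          cases x s <;> cases y s <;> simp
        · have : x s = y s := by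
            by_contra hc
            exact h (hs.1 hc)
          simp only [flp, if_neg h, this]
      refine Finset.mem_image.2 ⟨i, ?_, hy.symm⟩
      simp only [Finset.mem_filter, Finset.mem_univ, true_and, E, decide_eq_true_eq]
      rwa [← hy]
    have s2 := (Finset.card_le_card s1).trans Finset.card_image_le
    have s3 : ∑ i, ((E H i x).toNat : ℤ) = ((Finset.univ.filter fun i => E H i x = true).card : ℤ) := by
      rw [Finset.card_filter]
      push_cast
      refine Finset.sum_congr rfl fun i _ => ?_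
      cases E H i x <;> simp
    rw [s3]
    exact_mod_cast s2
  have h4 : ∑ x, (H.degree x : ℤ) ≤ ∑ x, ∑ i, ((E H i x).toNat : ℤ) := Finset.sum_le_sum fun x _ => h3 x
  have h5 : ∑ x, (H.degree x : ℤ) = 2 * (H.edgeFinset.card : ℤ) := by exact_mod_cast h1
  rw [h2]
  omega

def No6 (H : SimpleGraph (Fin n → Bool)) : Prop :=
  ∀ (v : Fin n → Bool) (p : H.Walk v v), p.IsCycle → p.length ≠ 6

theorem no6 (H : SimpleGraph (Fin n → Bool)) (h6 : No6 H) (a b c d e f : Fin n → Bool)
    (h1 : H.Adj a b) (h2 : H.Adj b c) (h3 : H.Adj c d) (h4 : H.Adj d e) (h5 : H.Adj e f) (h0 : H.Adj f a)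
    (ac : a ≠ c) (ad : a ≠ d) (ae : a ≠ e) (bd : b ≠ d) (be : b ≠ e) (bf : b ≠ f) (ce : c ≠ e)
    (cf : c ≠ f) (df : d ≠ f) : False := by
  refine h6 a (.cons h1 (.cons h2 (.cons h3 (.cons h4 (.cons h5 (.cons h0 .nil)))))) ?_ rfl
  have ab := h1.ne
  have bc := h2.ne
  have cd := h3.ne
  have de := h4.ne
  have ef := h5.ne
  have fa := h0.ne
  rw [SimpleGraph.Walk.cons_isCycle_iff]
  simp [SimpleGraph.Walk.isPath_def, ab, bc, cd, de, ef, fa, ac, ad, ae, bd, be, bf, ce, cf, df,
    ab.symm, bc.symm, cd.symm, de.symm, ef.symm, fa.symm, ac.symm, ad.symm, ae.symm, bd.symm, be.symm,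
    bf.symm, ce.symm, cf.symm, df.symm]

theorem cube_ne (i j k : Fin n) (ij : i ≠ j) (ik : i ≠ k) (jk : j ≠ k) (x : Fin n → Bool)
    (b c d b' c' d' : Bool) (h : tg b i (tg c j (tg d k x)) = tg b' i (tg c' j (tg d' k x))) :
    b = b' ∧ c = c' ∧ d = d' := by
  have h1 := congrFun h i
  have h2 := congrFun h j
  have h3 := congrFun h k
  revert h1 h2 h3
  cases b <;> cases c <;> cases d <;> cases b' <;> cases c' <;> cases d' <;>
    simp [tg, flp, ij, ik, jk, ij.symm, ik.symm, jk.symm]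

theorem sq_unique (H : SimpleGraph (Fin n → Bool)) (h6 : No6 H) (x : Fin n → Bool) (i j k : Fin n)
    (ij : i ≠ j) (ik : i ≠ k) (a1 : E H i (flp j x) = true) (a2 : E H j x = true)
    (a3 : E H j (flp i x) = true) (b1 : E H i (flp k x) = true) (b2 : E H k x = true)
    (b3 : E H k (flp i x) = true) : j = k := by
  by_contra jk
  simp only [E, decide_eq_true_eq] at a1 a2 a3 b1 b2 b3
  rw [flp_comm j i] at a3
  rw [flp_comm k i] at b3
  have ne := cube_ne i j k ij ik jk x
  refine no6 H h6 x (flp j x) (flp i (flp j x)) (flp i x) (flp i (flp k x)) (flp k x) a2 a1 a3.symm b3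
    b1.symm b2.symm ?_ ?_ ?_ ?_ ?_ ?_ ?_ ?_ ?_ <;> intro h
  · simpa using ne false false false true true false h
  · simpa using ne false false false true false false h
  · simpa using ne false false false true false true h
  · simpa using ne false true false true false false h
  · simpa using ne false true false true false true h
  · simpa using ne false true false false false true h
  · simpa using ne true true false true false true h
  · simpa using ne true true false false false true h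
  · simpa using ne true false false false false true h

theorem hex_no (H : SimpleGraph (Fin n → Bool)) (h6 : No6 H) (x : Fin n → Bool) (i j k : Fin n)
    (ij : i ≠ j) (ik : i ≠ k) (jk : j ≠ k) (e1 : E H i (flp j x) = true) (e3 : E H j (flp i x) = true)
    (e5 : E H k (flp i x) = true) (e6 : E H k (flp j x) = true) (e8 : E H i (flp k x) = true)
    (e10 : E H j (flp k x) = true) : False := by
  simp only [E, decide_eq_true_eq] at e1 e3 e5 e6 e8 e10
  rw [flp_comm j i] at e3
  rw [flp_comm k i] at e5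
  rw [flp_comm k j] at e6
  have ne := cube_ne i j k ij ik jk x
  refine no6 H h6 (flp i x) (flp i (flp j x)) (flp j x) (flp j (flp k x)) (flp k x) (flp i (flp k x))
    e3 e1.symm e6 e10.symm e8 e5.symm ?_ ?_ ?_ ?_ ?_ ?_ ?_ ?_ ?_ <;> intro h
  · simpa using ne true false false false true false h
  · simpa using ne true false false false true true h
  · simpa using ne true false false false false true h
  · simpa using ne true true false false true true h
  · simpa using ne true true false false false true h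
  · simpa using ne true true false true false true h
  · simpa using ne false true false false false true h
  · simpa using ne false true false true false true h
  · simpa using ne false true true true false true h

def B3 (H : SimpleGraph (Fin n → Bool)) (x : Fin n → Bool) (i j : Fin n) : Prop :=
  i ≠ j ∧ E H i (flp j x) = true ∧ E H j x = true ∧ E H j (flp i x) = true

def bad (H : SimpleGraph (Fin n → Bool)) (t : Tau n) : ℤ :=
  (if t.2.1 = t.2.2.1 then 1 else 0) + (if t.2.1 = t.2.2.2.1 then 1 else 0) +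
    (if t.2.2.1 = t.2.2.2.1 then 1 else 0) + (if B3 H t.1 t.2.1 t.2.2.1 then 1 else 0)

theorem bad_nonneg (H : SimpleGraph (Fin n → Bool)) (t : Tau n) : 0 ≤ bad H t := by
  unfold bad
  split_ifs <;> norm_num

theorem bad_pos (H : SimpleGraph (Fin n → Bool)) (h6 : No6 H) (t : Tau n)
    (h : (∀ e ∈ [1, 2, 3], ww H t e = true) ∨ ∀ e ∈ [1, 3, 5, 6, 8, 10], ww H t e = true) :
    1 ≤ bad H t := by
  obtain ⟨x, p, q, r, s⟩ := t
  unfold bad
  by_cases h1 : p = q
  · simp only [if_pos h1]; split_ifs <;> norm_num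
  by_cases h2 : p = r
  · simp only [if_pos h2]; split_ifs <;> norm_num
  by_cases h3 : q = r
  · simp only [if_pos h3]; split_ifs <;> norm_num
  rcases h with h | h
  · have : B3 H x p q := ⟨h1, h 1 (by simp), h 2 (by simp), h 3 (by simp)⟩
    simp only [if_pos this]; split_ifs <;> norm_num
  · exact (hex_no H h6 x p q r h1 h2 h3 (h 1 (by simp)) (h 3 (by simp)) (h 5 (by simp)) (h 6 (by simp))
      (h 8 (by simp)) (h 10 (by simp))).elim

theorem sum_bad (H : SimpleGraph (Fin n → Bool)) (h6 : No6 H) :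
    ∑ t : Tau n, bad H t ≤ 4 * (n ^ 3 * 2 ^ n) := by
  have hB : ∀ x i, ∑ j, (if B3 H x i j then (1 : ℤ) else 0) ≤ 1 := by
    intro x i
    have : (Finset.univ.filter fun j => B3 H x i j).card ≤ 1 := by
      refine Finset.card_le_one.2 fun j hj k hk => ?_
      obtain ⟨a0, a1, a2, a3⟩ := (Finset.mem_filter.1 hj).2
      obtain ⟨b0, b1, b2, b3⟩ := (Finset.mem_filter.1 hk).2
      exact sq_unique H h6 x i j k a0 b0 a1 a2 a3 b1 b2 b3
    rw [Finset.card_filter] at this
    exact_mod_cast this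
  have key : ∀ g : (Fin n → Bool) → Fin n → Fin n → ℤ, (∀ x i, ∑ j, g x i j ≤ 1) →
      ∑ t : Tau n, g t.1 t.2.1 t.2.2.1 ≤ n ^ 3 * 2 ^ n := by
    intro g hg
    have : ∑ t : Tau n, g t.1 t.2.1 t.2.2.1 = ∑ x, ∑ i, (n : ℤ) ^ 2 * ∑ j, g x i j := by
      simp only [Fintype.sum_prod_type, Finset.sum_const, Finset.card_univ, Fintype.card_fin,
        Fintype.card_prod, nsmul_eq_mul, Finset.mul_sum]
      refine Finset.sum_congr rfl fun x _ => Finset.sum_congr rfl fun i _ =>
        Finset.sum_congr rfl fun j _ => ?_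
      push_cast; ring
    rw [this]
    calc _ ≤ ∑ _x : Fin n → Bool, ∑ _i : Fin n, (n : ℤ) ^ 2 * 1 :=
          Finset.sum_le_sum fun x _ => Finset.sum_le_sum fun i _ =>
            mul_le_mul_of_nonneg_left (hg x i) (by positivity)
      _ = n ^ 3 * 2 ^ n := by simp; ring
  have e4 := key (fun x i j => if B3 H x i j then (1 : ℤ) else 0) hB
  have e1 := key (fun _ i j => if i = j then (1 : ℤ) else 0) (fun x i => by simp)
  have e2 : ∑ t : Tau n, (if t.2.1 = t.2.2.2.1 then (1 : ℤ) else 0) ≤ n ^ 3 * 2 ^ n :=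
    (sum_act [2] fun t : Tau n => if t.2.1 = t.2.2.1 then (1 : ℤ) else 0).le.trans e1
  have e3 : ∑ t : Tau n, (if t.2.2.1 = t.2.2.2.1 then (1 : ℤ) else 0) ≤ n ^ 3 * 2 ^ n :=
    (sum_act [2, 1] fun t : Tau n => if t.2.1 = t.2.2.1 then (1 : ℤ) else 0).le.trans e1
  unfold bad
  simp only [Finset.sum_add_distrib]
  linarith

theorem Phi_pt (H : SimpleGraph (Fin n → Bool)) (h6 : No6 H) (t : Tau n) :
    Phi (ww H t) ≤ 1089648 + 15728640 * ∑ W ∈ WB.toFinset, bad H (act W t) := by
  have h0 : 0 ≤ ∑ W ∈ WB.toFinset, bad H (act W t) := Finset.sum_nonneg fun W _ => bad_nonneg H _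
  by_cases hg : Good (ww H t)
  · have := Phi_good _ hg
    linarith
  · obtain ⟨W, hW, h⟩ := not_good _ hg
    have h1 : 1 ≤ bad H (act W t) := by
      refine bad_pos H h6 _ ?_
      rcases h with h | h
      · refine Or.inl fun e he => ?_
        rw [ww_act H W (WB_lt.1 W hW) t e (by simp at he; omega)]
        exact h e he
      · refine Or.inr fun e he => ?_
        rw [ww_act H W (WB_lt.1 W hW) t e (by simp at he; omega)]
        exact h e he
    have h2 : bad H (act W t) ≤ ∑ W ∈ WB.toFinset, bad H (act W t) :=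
      Finset.single_le_sum (f := fun W => bad H (act W t)) (fun W _ => bad_nonneg H _)
        (List.mem_toFinset.2 hW)
    have := Phi_le (ww H t)
    linarith

theorem main_int (H : SimpleGraph (Fin n → Bool))
    (hH : H ≤ SimpleGraph.fromRel (fun x y : Fin n → Bool => hammingDist x y = 1)) (h6 : No6 H) :
    (n : ℤ) ^ 3 * (6291456 * (H.edgeSet.ncard : ℤ)) ≤
      n ^ 3 * (1089648 * (n * 2 ^ n) + 7990149120 * 2 ^ n) := by
  have up : ∑ t : Tau n, Phi (ww H t) ≤ n ^ 3 * (1089648 * (n * 2 ^ n) + 7990149120 * 2 ^ n) := by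
    have u1 : ∑ t : Tau n, Phi (ww H t) ≤
        ∑ t : Tau n, (1089648 + 15728640 * ∑ W ∈ WB.toFinset, bad H (act W t)) :=
      Finset.sum_le_sum fun t _ => Phi_pt H h6 t
    have u2 : ∑ t : Tau n, ∑ W ∈ WB.toFinset, bad H (act W t) ≤ 127 * (4 * (n ^ 3 * 2 ^ n)) := by
      rw [Finset.sum_comm]
      calc _ ≤ ∑ _W ∈ WB.toFinset, 4 * ((n : ℤ) ^ 3 * 2 ^ n) :=
            Finset.sum_le_sum fun W _ => by rw [sum_act W (bad H)]; exact sum_bad H h6
        _ ≤ _ := by
            rw [Finset.sum_const, nsmul_eq_mul]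
            refine mul_le_mul_of_nonneg_right ?_ (by positivity)
            have := List.toFinset_card_le WB
            rw [WB_lt.2] at this
            exact_mod_cast this
    rw [Finset.sum_add_distrib, ← Finset.mul_sum] at u1
    have u3 : ∑ _t : Tau n, (1089648 : ℤ) = 1089648 * (n ^ 4 * 2 ^ n) := by
      simp; ring
    rw [u3] at u1
    nlinarith
  have lo : (n : ℤ) ^ 3 * (6291456 * (H.edgeSet.ncard : ℤ)) ≤ ∑ t : Tau n, Phi (ww H t) := by
    unfold Phi
    rw [Finset.sum_add_distrib, ← Finset.mul_sum, Finset.sum_comm, Finset.sum_comm (t := Finset.range 32)]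
    have l1 : 0 ≤ ∑ i ∈ Finset.range 24, ∑ t : Tau n, term (ww H t) i :=
      Finset.sum_nonneg fun i hi => sum_term H i (Finset.mem_range.1 hi)
    have l2 : ∑ e ∈ Finset.range 32, ∑ t : Tau n, ((ww H t e).toNat : ℤ) =
        32 * (n ^ 3 * ∑ x, ∑ i, ((E H i x).toNat : ℤ)) := by
      rw [Finset.sum_congr rfl fun e he => sum_edge H e (Finset.mem_range.1 he)]
      simp
    have l3 := mul_le_mul_of_nonneg_left (deg_sum H hH) (show (0 : ℤ) ≤ n ^ 3 by positivity)
    rw [l2]
    linarith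
  exact lo.trans up

end

end Pool.Agent.HexCube
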