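import Pool.Agent.Lib.MP_b9b223_co.Sound

set_option autoImplicit false
set_option maxRecDepth 100000

namespace Pool.Agent.HexCube

noncomputable section

def pg (k e : ℕ) : ℕ := (PG.getD k []).getD e 0
def st (k i : ℕ) : ℕ := (ST.getD k []).getD i 0
def sf (k f : ℕ) : ℕ := (SF.getD k []).getD f 0
def tA (i : ℕ) : List ℕ := (TL.getD i ([], [])).1
def tB (i : ℕ) : List ℕ := (TL.getD i ([], [])).2
def re (L D : List ℕ) : List ℕ := D.map fun d => L.getD d 0

theorem pg_lt : ∀ k < 4, ∀ e < 32, pg k e < 32 ∧ pg k (pg k e) = e := by decide +kernel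
theorem st_lt : ∀ k < 4, ∀ i < 24, st k i < 24 ∧ st k (st k i) = i := by decide +kernel
theorem sf_lt : ∀ k < 4, ∀ f < 8, sf k f < 8 ∧ sf k (sf k f) = f := by decide +kernel
theorem t_facts : ∀ i < 24, (tA i).length = 12 ∧ (tB i).length = 12 ∧ (tA i).take 4 = (tB i).take 4 ∧
    (∀ e ∈ tA i, e < 32) ∧ ∀ e ∈ tB i, e < 32 := by decide +kernel
theorem FL_lt : ∀ f < 8, ∀ e ∈ FL.getD f [], e < 32 := by decide +kernel

theorem st_rel : ∀ k < 4, ∀ i < 24,
    ((tA i).map (pg k) = tA (st k i) ∧ (tB i).map (pg k) = tB (st k i)) ∨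
    ((tA i).map (pg k) = re (tA (st k i)) G0 ∧ (tB i).map (pg k) = re (tB (st k i)) G0) ∨
    ((tA i).map (pg k) = re (tA (st k i)) G1 ∧ (tB i).map (pg k) = re (tB (st k i)) G1) ∨
    ((tA i).map (pg k) = tB (st k i) ∧ (tB i).map (pg k) = tA (st k i)) := by decide +kernel

theorem sf_rel : ∀ k < 4, ∀ f < 8,
    (FL.getD f []).map (pg k) = FL.getD (sf k f) [] ∨
    (FL.getD f []).map (pg k) = re (FL.getD (sf k f) []) G0 ∨
    (FL.getD f []).map (pg k) = re (FL.getD (sf k f) []) G1 ∨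
    (FL.getD f []).map (pg k) = re (FL.getD (sf k f) []) G2 := by decide +kernel

theorem G_lt : (∀ d ∈ G0, d < 12) ∧ (∀ d ∈ G1, d < 12) ∧ ∀ d ∈ G2, d < 12 := by decide

theorem term_def (w : ℕ → Bool) (i : ℕ) : term w i = Kz (extF w (tA i)) (extF w (tB i)) := rfl

theorem term_gen (w w' : ℕ → Bool) (k : ℕ) (hk : k < 4) (h : ∀ e < 32, w' e = w (pg k e)) (i : ℕ)
    (hi : i < 24) : term w' i = term w (st k i) := by
  obtain ⟨-, -, -, a4, a5⟩ := t_facts i hi
  obtain ⟨b1, b2, b3, -, -⟩ := t_facts _ (st_lt k hk i hi).1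
  have lA : extF w (tA (st k i)) < 4096 := by have := extF_lt w (tA (st k i)); rwa [b1] at this
  have lB : extF w (tB (st k i)) < 4096 := by have := extF_lt w (tB (st k i)); rwa [b2] at this
  have hm : extF w (tA (st k i)) % 16 = extF w (tB (st k i)) % 16 := by
    rw [extF_mod _ _ (by omega), extF_mod _ _ (by omega), b3]
  rw [term_def, term_def, extF_congr w w' (pg k) _ (fun e he => h e (a4 e he)),
    extF_congr w w' (pg k) _ (fun e he => h e (a5 e he))]
  rcases st_rel k hk i hi with ⟨e1, e2⟩ | ⟨e1, e2⟩ | ⟨e1, e2⟩ | ⟨e1, e2⟩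
  · rw [e1, e2]
  · rw [e1, e2, ← (Kz_inv _ _ lA lB hm).1, ext_extF _ _ _ (by rw [b1]; exact G_lt.1),
      ext_extF _ _ _ (by rw [b2]; exact G_lt.1)]
    rfl
  · rw [e1, e2, ← (Kz_inv _ _ lA lB hm).2, ext_extF _ _ _ (by rw [b1]; exact G_lt.2.1),
      ext_extF _ _ _ (by rw [b2]; exact G_lt.2.1)]
    rfl
  · rw [e1, e2, Kz_symm _ _ lA lB hm]

theorem Phi_gen (w w' : ℕ → Bool) (k : ℕ) (hk : k < 4) (h : ∀ e < 32, w' e = w (pg k e)) :
    Phi w' = Phi w := by
  have e1 : ∑ i ∈ Finset.range 24, term w' i = ∑ i ∈ Finset.range 24, term w i := by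
    refine Finset.sum_nbij' (st k) (st k) ?_ ?_ ?_ ?_ ?_
    · intro i hi; exact Finset.mem_range.2 (st_lt k hk i (Finset.mem_range.1 hi)).1
    · intro i hi; exact Finset.mem_range.2 (st_lt k hk i (Finset.mem_range.1 hi)).1
    · intro i hi; exact (st_lt k hk i (Finset.mem_range.1 hi)).2
    · intro i hi; exact (st_lt k hk i (Finset.mem_range.1 hi)).2
    · intro i hi; exact term_gen w w' k hk h i (Finset.mem_range.1 hi)
  have e2 : ∑ e ∈ Finset.range 32, ((w' e).toNat : ℤ) = ∑ e ∈ Finset.range 32, ((w e).toNat : ℤ) := by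
    refine Finset.sum_nbij' (pg k) (pg k) ?_ ?_ ?_ ?_ ?_
    · intro i hi; exact Finset.mem_range.2 (pg_lt k hk i (Finset.mem_range.1 hi)).1
    · intro i hi; exact Finset.mem_range.2 (pg_lt k hk i (Finset.mem_range.1 hi)).1
    · intro i hi; exact (pg_lt k hk i (Finset.mem_range.1 hi)).2
    · intro i hi; exact (pg_lt k hk i (Finset.mem_range.1 hi)).2
    · intro i hi; rw [h i (Finset.mem_range.1 hi)]
  unfold Phi
  rw [e1, e2]

theorem rk_gen (w w' : ℕ → Bool) (k : ℕ) (hk : k < 4) (h : ∀ e < 32, w' e = w (pg k e)) (f : ℕ)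
    (hf : f < 8) : rk (fp w' f) = rk (fp w (sf k f)) := by
  have l := fp_lt w _ (sf_lt k hk f hf).1
  have b := FL_len _ (sf_lt k hk f hf).1
  obtain ⟨i0, i1, i2⟩ := rk_inv _ l
  unfold fp at *
  rw [extF_congr w w' (pg k) _ (fun e he => h e (FL_lt f hf e he))]
  rcases sf_rel k hk f hf with e | e | e | e
  · rw [e]
  · rw [e, ← i0, ext_extF _ _ _ (by rw [b]; exact G_lt.1)]; rfl
  · rw [e, ← i1, ext_extF _ _ _ (by rw [b]; exact G_lt.2.1)]; rfl
  · rw [e, ← i2, ext_extF _ _ _ (by rw [b]; exact G_lt.2.2)]; rfl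

theorem fp6_gen (w w' : ℕ → Bool) (k : ℕ) (G : List ℕ) (h : ∀ e < 32, w' e = w (pg k e))
    (hG : ∀ d ∈ G, d < 12) (e : (FL.getD 6 []).map (pg k) = re (FL.getD 6 []) G) :
    fp w' 6 = ext (fp w 6) G := by
  unfold fp
  rw [extF_congr w w' (pg k) _ (fun e he => h e (FL_lt 6 (by norm_num) e he)), e,
    ext_extF _ _ _ (by rw [FL_len 6 (by norm_num)]; exact hG)]
  rfl

def Good (w : ℕ → Bool) : Prop := ∀ f < 8, rk (fp w f) ≤ 62
def IsMax (w : ℕ → Bool) (g : ℕ) : Prop := ∀ f < 8, rk (fp w f) ≤ rk (fp w g)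

theorem Good_gen (w : ℕ → Bool) (k : ℕ) (hk : k < 4) (h : Good w) : Good (w ∘ pg k) := by
  intro f hf
  rw [rk_gen w (w ∘ pg k) k hk (fun _ _ => rfl) f hf]
  exact h _ (sf_lt k hk f hf).1

theorem IsMax_gen (w : ℕ → Bool) (k : ℕ) (hk : k < 4) (g : ℕ) (hg : g < 8) (h : IsMax w (sf k g)) :
    IsMax (w ∘ pg k) g := by
  intro f hf
  rw [rk_gen w (w ∘ pg k) k hk (fun _ _ => rfl) f hf, rk_gen w (w ∘ pg k) k hk (fun _ _ => rfl) g hg]
  exact h _ (sf_lt k hk f hf).1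

theorem bound6 (m : ℕ) : ∀ w : ℕ → Bool, nu (fp w 6) = m → Good w → IsMax w 6 → Phi w ≤ 1089648 := by
  induction m using Nat.strong_induction_on with
  | _ m ih =>
    intro w hm hg hx
    have gf := good_facts _ (fp_lt w 6 (by norm_num)) (hg 6 (by norm_num))
    have step : ∀ k G, k < 4 → sf k 6 = 6 → (∀ d ∈ G, d < 12) →
        (FL.getD 6 []).map (pg k) = re (FL.getD 6 []) G → nu (ext (fp w 6) G) < nu (fp w 6) →
        Phi w ≤ 1089648 := by
      intro k G hk hs hG e hlt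
      rw [← Phi_gen w (w ∘ pg k) k hk (fun _ _ => rfl)]
      refine ih _ ?_ (w ∘ pg k) rfl (Good_gen w k hk hg) (IsMax_gen w k hk 6 (by norm_num) (by rwa [hs]))
      rw [fp6_gen w (w ∘ pg k) k G (fun _ _ => rfl) hG e, ← hm]
      exact hlt
    rcases gf.rep with h | h | h | h
    · obtain ⟨k, hk, hp⟩ := (good_facts _ (fp_lt w 7 (by norm_num)) (hg 7 (by norm_num))).piece
      have := job_all _ k gf.le34 hk
      unfold job at this
      simp only at this
      rw [h] at this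
      exact chk_sound w hg hx _ hp this
    · exact step 0 G0 (by norm_num) (by decide) G_lt.1 (by decide) h
    · exact step 1 G1 (by norm_num) (by decide) G_lt.2.1 (by decide) h
    · exact step 2 G2 (by norm_num) (by decide) G_lt.2.2 (by decide) h

theorem Phi_good (w : ℕ → Bool) (hg : Good w) : Phi w ≤ 1089648 := by
  have step : ∀ k g, k < 4 → g < 8 → (∀ w, Good w → IsMax w g → Phi w ≤ 1089648) →
      ∀ w, Good w → IsMax w (sf k g) → Phi w ≤ 1089648 := by
    intro k g hk hg' H w hw hx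
    rw [← Phi_gen w (w ∘ pg k) k hk (fun _ _ => rfl)]
    exact H _ (Good_gen w k hk hw) (IsMax_gen w k hk g hg' hx)
  have h6 : ∀ w, Good w → IsMax w 6 → Phi w ≤ 1089648 := fun w => bound6 _ w rfl
  have h4 : ∀ w, Good w → IsMax w 4 → Phi w ≤ 1089648 := step 3 6 (by norm_num) (by norm_num) h6
  have h2 : ∀ w, Good w → IsMax w 2 → Phi w ≤ 1089648 := step 2 4 (by norm_num) (by norm_num) h4
  have h0 : ∀ w, Good w → IsMax w 0 → Phi w ≤ 1089648 := step 1 2 (by norm_num) (by norm_num) h2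
  have h1 : ∀ w, Good w → IsMax w 1 → Phi w ≤ 1089648 := step 0 0 (by norm_num) (by norm_num) h0
  have h3 : ∀ w, Good w → IsMax w 3 → Phi w ≤ 1089648 := step 1 1 (by norm_num) (by norm_num) h1
  have h5 : ∀ w, Good w → IsMax w 5 → Phi w ≤ 1089648 := step 2 3 (by norm_num) (by norm_num) h3
  have h7 : ∀ w, Good w → IsMax w 7 → Phi w ≤ 1089648 := step 3 5 (by norm_num) (by norm_num) h5
  obtain ⟨g, hg1, hg2⟩ := Finset.exists_max_image (Finset.range 8) (fun f => rk (fp w f)) (by simp)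
  have hx : IsMax w g := fun f hf => hg2 f (Finset.mem_range.2 hf)
  have hg8 := Finset.mem_range.1 hg1
  interval_cases g
  exacts [h0 w hg hx, h1 w hg hx, h2 w hg hx, h3 w hg hx, h4 w hg hx, h5 w hg hx, h6 w hg hx, h7 w hg hx]

theorem Phi_le (w : ℕ → Bool) : Phi w ≤ 15728640 := by
  unfold Phi
  have h1 : ∑ i ∈ Finset.range 24, term w i ≤ ∑ _i ∈ Finset.range 24, (524288 : ℤ) :=
    Finset.sum_le_sum fun i _ => Kz_le _ _
  have h2 : ∑ e ∈ Finset.range 32, ((w e).toNat : ℤ) ≤ ∑ _e ∈ Finset.range 32, (1 : ℤ) :=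
    Finset.sum_le_sum fun e _ => by exact_mod_cast Bool.toNat_le (w e)
  simp only [Finset.sum_const, Finset.card_range, nsmul_eq_mul] at h1 h2
  push_cast at h1 h2
  linarith

def pw : List ℕ → ℕ → ℕ
  | [], e => e
  | k :: W, e => pw W (pg k e)

theorem WB_rel : ∀ f < 8, ∀ s ∈ forb, (∀ d ∈ s, d < 12) ∧ ∃ W ∈ WB,
    (∀ e ∈ [1, 2, 3], pw W e ∈ re (FL.getD f []) s) ∨
    (∀ e ∈ [1, 3, 5, 6, 8, 10], pw W e ∈ re (FL.getD f []) s) := by decide +kernel

theorem not_good (w : ℕ → Bool) (h : ¬ Good w) : ∃ W ∈ WB,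
    (∀ e ∈ [1, 2, 3], w (pw W e) = true) ∨ (∀ e ∈ [1, 3, 5, 6, 8, 10], w (pw W e) = true) := by
  unfold Good at h
  push Not at h
  obtain ⟨f, hf, hr⟩ := h
  obtain ⟨s, hs, hb⟩ := bad_forb _ (fp_lt w f hf) (by omega)
  obtain ⟨h12, W, hW, hh⟩ := WB_rel f hf s hs
  have key : ∀ x ∈ re (FL.getD f []) s, w x = true := by
    intro x hx
    obtain ⟨d, hd, rfl⟩ := List.mem_map.1 hx
    have := hb d hd
    unfold fp at this
    rw [fld_extF _ _ _ (by rw [FL_len f hf]; exact h12 d hd)] at this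
    cases hw : w ((FL.getD f []).getD d 0)
    · rw [hw] at this; simp at this
    · rfl
  refine ⟨W, hW, ?_⟩
  rcases hh with hh | hh
  · exact Or.inl fun e he => key _ (hh e he)
  · exact Or.inr fun e he => key _ (hh e he)

end

end Pool.Agent.HexCube
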