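import Pool.Agent.Lib.MP_b9b223_co.Chk

set_option autoImplicit false
set_option maxRecDepth 100000

namespace Pool.Agent.HexCube

def seg0 : List (ℕ × ℕ) := [(0,0), (0,1), (0,2), (0,3), (0,4), (0,5), (0,6), (0,7), (0,8), (0,9), (0,10), (0,11), (0,12), (0,13), (0,14), (0,15), (1,0), (1,1), (1,2), (1,3), (1,4), (1,5), (1,6), (1,7), (1,8), (1,9), (1,10), (1,11), (1,12), (1,13), (1,14), (1,15), (2,0), (2,1), (2,2), (2,3), (2,4), (2,5), (2,6), (2,7), (2,8), (2,9), (2,10), (2,11), (2,12), (2,13), (2,14), (2,15), (3,0), (3,1), (3,2), (3,3), (3,4), (3,5), (3,6), (3,7), (3,8), (3,9), (3,10), (3,11), (3,12), (3,13), (3,14), (3,15), (4,0), (4,1), (4,2), (4,3), (4,4), (4,5), (4,6), (4,7), (4,8), (4,9), (4,10), (4,11), (4,12), (4,13), (4,14), (4,15), (5,0), (5,1), (5,2), (5,3), (5,4), (5,5), (5,6), (5,7), (5,8), (5,9), (5,10), (5,11), (5,12), (5,13), (5,14), (5,15), (6,0), (6,1), (6,2), (6,3), (6,4), (6,5), (6,6), (6,7), (6,8), (6,9), (6,10), (6,11), (6,12), (6,13), (6,14), (6,15), (7,0), (7,1), (7,2), (7,3),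 (7,4), (7,5), (7,6), (7,7), (7,8), (7,9), (7,10), (7,11), (7,12), (7,13), (7,14), (7,15), (8,0), (8,1), (8,2), (8,3), (8,4), (8,5), (8,6), (8,7), (8,8), (8,9), (8,10), (8,11), (8,12), (8,13), (8,14), (8,15), (9,0), (9,1), (9,2), (9,3), (9,4), (9,5), (9,6), (9,7), (9,8), (9,9), (9,10), (9,11), (9,12), (9,13), (9,14), (9,15), (10,0), (10,1), (10,2), (10,3), (10,4), (10,5), (10,6), (10,7), (10,8), (10,9), (10,10), (10,11), (10,12), (10,13), (10,14), (10,15), (11,0), (11,1), (11,2), (11,3), (11,4), (11,5), (11,6), (11,7), (11,8), (11,9), (11,10), (11,11), (11,12), (11,13), (11,14), (11,15), (12,0), (12,1), (12,2), (12,3), (12,4), (12,5), (12,6), (12,7), (12,8), (12,9), (12,10), (12,11), (12,12), (12,13), (12,14), (12,15), (13,0), (13,1)]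
theorem seg0_ok : allL seg0 job = true := by decide +kernel

def seg1 : List (ℕ × ℕ) := [(13,2), (13,3), (13,4), (13,5), (13,6), (13,7), (13,8), (13,9), (13,10), (13,11), (13,12), (13,13), (13,14), (13,15), (14,0), (14,1), (14,2), (14,3), (14,4), (14,5), (14,6), (14,7), (14,8), (14,9), (14,10), (14,11), (14,12), (14,13), (14,14), (14,15), (15,0), (15,1), (15,2), (15,3), (15,4), (15,5), (15,6), (15,7), (15,8), (15,9), (15,10), (15,11), (15,12), (15,13), (15,14), (15,15), (16,0), (16,1), (16,2), (16,3), (16,4), (16,5), (16,6), (16,7), (16,8), (16,9), (16,10), (16,11), (16,12), (16,13), (16,14), (16,15), (17,0), (17,1), (17,2)]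
theorem seg1_ok : allL seg1 job = true := by decide +kernel

def seg2 : List (ℕ × ℕ) := [(17,3), (17,4), (17,5), (17,6), (17,7), (17,8), (17,9), (17,10), (17,11), (17,12), (17,13), (17,14), (17,15), (18,0), (18,1), (18,2), (18,3), (18,4), (18,5), (18,6), (18,7), (18,8), (18,9), (18,10), (18,11), (18,12), (18,13), (18,14), (18,15), (19,0), (19,1), (19,2), (19,3), (19,4), (19,5), (19,6), (19,7)]
theorem seg2_ok : allL seg2 job = true := by decide +kernel

def seg3 : List (ℕ × ℕ) := [(19,8), (19,9), (19,10), (19,11), (19,12), (19,13), (19,14), (19,15), (20,0), (20,1), (20,2), (20,3), (20,4), (20,5), (20,6), (20,7), (20,8), (20,9), (20,10), (20,11), (20,12), (20,13), (20,14), (20,15), (21,0), (21,1), (21,2), (21,3), (21,4), (21,5)]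
theorem seg3_ok : allL seg3 job = true := by decide +kernel

def seg4 : List (ℕ × ℕ) := [(21,6), (21,7), (21,8), (21,9), (21,10), (21,11), (21,12), (21,13), (21,14), (21,15), (22,0), (22,1), (22,2), (22,3), (22,4), (22,5), (22,6), (22,7), (22,8), (22,9), (22,10), (22,11), (22,12), (22,13)]
theorem seg4_ok : allL seg4 job = true := by decide +kernel

def seg5 : List (ℕ × ℕ) := [(22,14), (22,15), (23,0), (23,1), (23,2), (23,3), (23,4), (23,5), (23,6), (23,7), (23,8), (23,9), (23,10), (23,11), (23,12), (23,13), (23,14), (23,15), (24,0), (24,1), (24,2), (24,3), (24,4)]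
theorem seg5_ok : allL seg5 job = true := by decide +kernel

def seg6 : List (ℕ × ℕ) := [(24,5), (24,6), (24,7), (24,8), (24,9), (24,10), (24,11), (24,12), (24,13), (24,14), (24,15), (25,0), (25,1), (25,2), (25,3), (25,4), (25,5)]
theorem seg6_ok : allL seg6 job = true := by decide +kernel

def seg7 : List (ℕ × ℕ) := [(25,6), (25,7), (25,8), (25,9), (25,10), (25,11), (25,12), (25,13), (25,14), (25,15), (26,0), (26,1)]
theorem seg7_ok : allL seg7 job = true := by decide +kernel

def seg8 : List (ℕ × ℕ) := [(26,2), (26,3), (26,4), (26,5), (26,6), (26,7), (26,8), (26,9), (26,10), (26,11), (26,12), (26,13), (26,14)]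
theorem seg8_ok : allL seg8 job = true := by decide +kernel

def seg9 : List (ℕ × ℕ) := [(26,15), (27,0), (27,1), (27,2), (27,3), (27,4), (27,5), (27,6), (27,7), (27,8), (27,9)]
theorem seg9_ok : allL seg9 job = true := by decide +kernel

def seg10 : List (ℕ × ℕ) := [(27,10), (27,11), (27,12), (27,13), (27,14), (27,15), (28,0), (28,1), (28,2)]
theorem seg10_ok : allL seg10 job = true := by decide +kernel

def seg11 : List (ℕ × ℕ) := [(28,3), (28,4), (28,5), (28,6), (28,7), (28,8), (28,9), (28,10), (28,11), (28,12), (28,13), (28,14)]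
theorem seg11_ok : allL seg11 job = true := by decide +kernel

def seg12 : List (ℕ × ℕ) := [(28,15), (29,0), (29,1), (29,2)]
theorem seg12_ok : allL seg12 job = true := by decide +kernel

def seg13 : List (ℕ × ℕ) := [(29,3), (29,4), (29,5), (29,6)]
theorem seg13_ok : allL seg13 job = true := by decide +kernel

def seg14 : List (ℕ × ℕ) := [(29,7), (29,8), (29,9), (29,10)]
theorem seg14_ok : allL seg14 job = true := by decide +kernel

def seg15 : List (ℕ × ℕ) := [(29,11), (29,12), (29,13)]
theorem seg15_ok : allL seg15 job = true := by decide +kernel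

def seg16 : List (ℕ × ℕ) := [(29,14), (29,15), (30,0), (30,1)]
theorem seg16_ok : allL seg16 job = true := by decide +kernel

def seg17 : List (ℕ × ℕ) := [(30,2), (30,3), (30,4), (30,5)]
theorem seg17_ok : allL seg17 job = true := by decide +kernel

def seg18 : List (ℕ × ℕ) := [(30,6), (30,7), (30,8), (30,9)]
theorem seg18_ok : allL seg18 job = true := by decide +kernel

def seg19 : List (ℕ × ℕ) := [(30,10), (30,11), (30,12), (30,13)]
theorem seg19_ok : allL seg19 job = true := by decide +kernel

def seg20 : List (ℕ × ℕ) := [(30,14), (30,15), (31,0), (31,1)]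
theorem seg20_ok : allL seg20 job = true := by decide +kernel

def seg21 : List (ℕ × ℕ) := [(31,2), (31,3), (31,4), (31,5)]
theorem seg21_ok : allL seg21 job = true := by decide +kernel

def seg22 : List (ℕ × ℕ) := [(31,6), (31,7), (31,8), (31,9)]
theorem seg22_ok : allL seg22 job = true := by decide +kernel

end Pool.Agent.HexCube
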