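import Pool.Agent.Lib.MP_b9b223_co.Chk

set_option autoImplicit false
set_option maxRecDepth 100000

namespace Pool.Agent.HexCube

def seg23 : List (ℕ × ℕ) := [(31,10), (31,11), (31,12), (31,13)]
theorem seg23_ok : allL seg23 job = true := by decide +kernel

def seg24 : List (ℕ × ℕ) := [(31,14), (31,15), (32,0)]
theorem seg24_ok : allL seg24 job = true := by decide +kernel

def seg25 : List (ℕ × ℕ) := [(32,1), (32,2), (32,3)]
theorem seg25_ok : allL seg25 job = true := by decide +kernel

def seg26 : List (ℕ × ℕ) := [(32,4), (32,5), (32,6)]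
theorem seg26_ok : allL seg26 job = true := by decide +kernel

def seg27 : List (ℕ × ℕ) := [(32,7), (32,8), (32,9)]
theorem seg27_ok : allL seg27 job = true := by decide +kernel

def seg28 : List (ℕ × ℕ) := [(32,10), (32,11), (32,12)]
theorem seg28_ok : allL seg28 job = true := by decide +kernel

def seg29 : List (ℕ × ℕ) := [(32,13), (32,14), (32,15)]
theorem seg29_ok : allL seg29 job = true := by decide +kernel

def seg30 : List (ℕ × ℕ) := [(33,0), (33,1)]
theorem seg30_ok : allL seg30 job = true := by decide +kernel

def seg31 : List (ℕ × ℕ) := [(33,2), (33,3)]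
theorem seg31_ok : allL seg31 job = true := by decide +kernel

def seg32 : List (ℕ × ℕ) := [(33,4), (33,5)]
theorem seg32_ok : allL seg32 job = true := by decide +kernel

def seg33 : List (ℕ × ℕ) := [(33,6), (33,7)]
theorem seg33_ok : allL seg33 job = true := by decide +kernel

def seg34 : List (ℕ × ℕ) := [(33,8), (33,9)]
theorem seg34_ok : allL seg34 job = true := by decide +kernel

def seg35 : List (ℕ × ℕ) := [(33,10), (33,11)]
theorem seg35_ok : allL seg35 job = true := by decide +kernel

def seg36 : List (ℕ × ℕ) := [(33,12), (33,13)]
theorem seg36_ok : allL seg36 job = true := by decide +kernel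

def seg37 : List (ℕ × ℕ) := [(33,14), (33,15)]
theorem seg37_ok : allL seg37 job = true := by decide +kernel

def seg38 : List (ℕ × ℕ) := [(34,0), (34,1)]
theorem seg38_ok : allL seg38 job = true := by decide +kernel

def seg39 : List (ℕ × ℕ) := [(34,2), (34,3), (34,4)]
theorem seg39_ok : allL seg39 job = true := by decide +kernel

def seg40 : List (ℕ × ℕ) := [(34,5), (34,6)]
theorem seg40_ok : allL seg40 job = true := by decide +kernel

def seg41 : List (ℕ × ℕ) := [(34,7), (34,8)]
theorem seg41_ok : allL seg41 job = true := by decide +kernel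

def seg42 : List (ℕ × ℕ) := [(34,9), (34,10)]
theorem seg42_ok : allL seg42 job = true := by decide +kernel

def seg43 : List (ℕ × ℕ) := [(34,11), (34,12)]
theorem seg43_ok : allL seg43 job = true := by decide +kernel

def seg44 : List (ℕ × ℕ) := [(34,13), (34,14)]
theorem seg44_ok : allL seg44 job = true := by decide +kernel

def seg45 : List (ℕ × ℕ) := [(34,15)]
theorem seg45_ok : allL seg45 job = true := by decide +kernel

end Pool.Agent.HexCube
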