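import Pool.Agent.Lib.MP_b9b223_co.Chk

set_option autoImplicit false
set_option maxRecDepth 100000

namespace Pool.Agent.HexCube

theorem okF0 : allN 0 1024 okF = true := by decide +kernel
theorem okF1 : allN 1024 1024 okF = true := by decide +kernel
theorem okF2 : allN 2048 1024 okF = true := by decide +kernel
theorem okF3 : allN 3072 1024 okF = true := by decide +kernel

end Pool.Agent.HexCube
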