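import Pool.Agent.Lib.MP_b9b223_co.Chk

set_option autoImplicit false
set_option maxRecDepth 100000

namespace Pool.Agent.HexCube

theorem okB0 : okB 0 = true := by decide +kernel
theorem okB1 : okB 1 = true := by decide +kernel
theorem okB2 : okB 2 = true := by decide +kernel
theorem okB3 : okB 3 = true := by decide +kernel

end Pool.Agent.HexCube
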