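import Pool.Agent.Lib.MP_b9b223_co.Chk

set_option autoImplicit false
set_option maxRecDepth 100000

namespace Pool.Agent.HexCube

theorem okS0 : okS 0 = true := by decide +kernel
theorem okS1 : okS 1 = true := by decide +kernel
theorem okS2 : okS 2 = true := by decide +kernel
theorem okS3 : okS 3 = true := by decide +kernel
theorem okS5 : okS 5 = true := by decide +kernel
theorem okS7 : okS 7 = true := by decide +kernel

end Pool.Agent.HexCube
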