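import Pool.Agent.Lib.MP_b9b223_co.Chk

set_option autoImplicit false
set_option maxRecDepth 100000

namespace Pool.Agent.HexCube

theorem okS4 : okS 4 = true := by decide +kernel
theorem okS6 : okS 6 = true := by decide +kernel
theorem okS8 : okS 8 = true := by decide +kernel
theorem okS9 : okS 9 = true := by decide +kernel
theorem okS10 : okS 10 = true := by decide +kernel
theorem okS11 : okS 11 = true := by decide +kernel
theorem okS12 : okS 12 = true := by decide +kernel
theorem okS13 : okS 13 = true := by decide +kernel
theorem okS14 : okS 14 = true := by decide +kernel
theorem okS15 : okS 15 = true := by decide +kernel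

end Pool.Agent.HexCube
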