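import Pool.Agent.Lib.MP_b9b223_co.Tab
import Pool.Agent.Lib.MP_b9b223_co.Run0
import Pool.Agent.Lib.MP_b9b223_co.Run1

set_option autoImplicit false
set_option maxRecDepth 100000

namespace Pool.Agent.HexCube

noncomputable section

def FL : List (List ℕ) := [[2, 10, 4, 6, 24, 26, 28, 30, 14, 22, 16, 18],
  [3, 11, 5, 7, 25, 27, 29, 31, 15, 23, 17, 19],
  [0, 8, 4, 5, 24, 25, 28, 29, 12, 20, 16, 17],
  [1, 9, 6, 7, 26, 27, 30, 31, 13, 21, 18, 19],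
  [0, 1, 2, 3, 24, 25, 26, 27, 12, 13, 14, 15],
  [8, 9, 10, 11, 28, 29, 30, 31, 20, 21, 22, 23],
  [0, 1, 2, 3, 4, 5, 6, 7, 8, 9, 10, 11],
  [12, 13, 14, 15, 16, 17, 18, 19, 20, 21, 22, 23]]
def TL : List (List ℕ × List ℕ) := [([4, 16, 24, 28, 2, 10, 14, 22, 6, 18, 26, 30],
  [4, 16, 24, 28, 0, 8, 12, 20, 5, 17, 25, 29]),
  ([6, 18, 26, 30, 2, 10, 14, 22, 4, 16, 24, 28],
  [6, 18, 26, 30, 1, 9, 13, 21, 7, 19, 27, 31]),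
  ([5, 17, 25, 29, 3, 11, 15, 23, 7, 19, 27, 31],
  [5, 17, 25, 29, 0, 8, 12, 20, 4, 16, 24, 28]),
  ([7, 19, 27, 31, 3, 11, 15, 23, 5, 17, 25, 29],
  [7, 19, 27, 31, 1, 9, 13, 21, 6, 18, 26, 30]),
  ([2, 14, 24, 26, 4, 6, 16, 18, 10, 22, 28, 30],
  [2, 14, 24, 26, 0, 1, 12, 13, 3, 15, 25, 27]),
  ([10, 22, 28, 30, 4, 6, 16, 18, 2, 14, 24, 26],
  [10, 22, 28, 30, 8, 9, 20, 21, 11, 23, 29, 31]),
  ([3, 15, 25, 27, 5, 7, 17, 19, 11, 23, 29, 31],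
  [3, 15, 25, 27, 0, 1, 12, 13, 2, 14, 24, 26]),
  ([11, 23, 29, 31, 5, 7, 17, 19, 3, 15, 25, 27],
  [11, 23, 29, 31, 8, 9, 20, 21, 10, 22, 28, 30]),
  ([2, 10, 4, 6, 24, 26, 28, 30, 14, 22, 16, 18],
  [2, 10, 4, 6, 0, 1, 8, 9, 3, 11, 5, 7]),
  ([14, 22, 16, 18, 24, 26, 28, 30, 2, 10, 4, 6],
  [14, 22, 16, 18, 12, 13, 20, 21, 15, 23, 17, 19]),
  ([3, 11, 5, 7, 25, 27, 29, 31, 15, 23, 17, 19],
  [3, 11, 5, 7, 0, 1, 8, 9, 2, 10, 4, 6]),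
  ([15, 23, 17, 19, 25, 27, 29, 31, 3, 11, 5, 7],
  [15, 23, 17, 19, 12, 13, 20, 21, 14, 22, 16, 18]),
  ([0, 12, 24, 25, 4, 5, 16, 17, 8, 20, 28, 29],
  [0, 12, 24, 25, 2, 3, 14, 15, 1, 13, 26, 27]),
  ([8, 20, 28, 29, 4, 5, 16, 17, 0, 12, 24, 25],
  [8, 20, 28, 29, 10, 11, 22, 23, 9, 21, 30, 31]),
  ([1, 13, 26, 27, 6, 7, 18, 19, 9, 21, 30, 31],
  [1, 13, 26, 27, 2, 3, 14, 15, 0, 12, 24, 25]),
  ([9, 21, 30, 31, 6, 7, 18, 19, 1, 13, 26, 27],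
  [9, 21, 30, 31, 10, 11, 22, 23, 8, 20, 28, 29]),
  ([0, 8, 4, 5, 24, 25, 28, 29, 12, 20, 16, 17],
  [0, 8, 4, 5, 2, 3, 10, 11, 1, 9, 6, 7]),
  ([12, 20, 16, 17, 24, 25, 28, 29, 0, 8, 4, 5],
  [12, 20, 16, 17, 14, 15, 22, 23, 13, 21, 18, 19]),
  ([1, 9, 6, 7, 26, 27, 30, 31, 13, 21, 18, 19],
  [1, 9, 6, 7, 2, 3, 10, 11, 0, 8, 4, 5]),
  ([13, 21, 18, 19, 26, 27, 30, 31, 1, 9, 6, 7],
  [13, 21, 18, 19, 14, 15, 22, 23, 12, 20, 16, 17]),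
  ([0, 1, 2, 3, 24, 25, 26, 27, 12, 13, 14, 15],
  [0, 1, 2, 3, 4, 5, 6, 7, 8, 9, 10, 11]),
  ([12, 13, 14, 15, 24, 25, 26, 27, 0, 1, 2, 3],
  [12, 13, 14, 15, 16, 17, 18, 19, 20, 21, 22, 23]),
  ([8, 9, 10, 11, 28, 29, 30, 31, 20, 21, 22, 23],
  [8, 9, 10, 11, 4, 5, 6, 7, 0, 1, 2, 3]),
  ([20, 21, 22, 23, 28, 29, 30, 31, 8, 9, 10, 11],
  [20, 21, 22, 23, 16, 17, 18, 19, 12, 13, 14, 15])]
def ED : List ℕ := [0, 0, 1, 1, 2, 2, 2, 2, 0, 0, 1, 1, 0, 0, 1, 1, 2, 2, 2, 2, 0, 0, 1, 1, 3, 3, 3, 3, 3, 3, 3, 3]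
def EV : List ℕ := [0, 2, 0, 1, 0, 1, 2, 3, 4, 6, 4, 5, 8, 10, 8, 9, 8, 9, 10, 11, 12, 14, 12, 13, 0, 1, 2, 3, 4, 5, 6, 7]
def PG : List (List ℕ) := [[0, 1, 3, 2, 5, 4, 7, 6, 8, 9, 11, 10, 12, 13, 15, 14, 17, 16, 19, 18, 20, 21, 23, 22, 25, 24, 27, 26, 29, 28, 31, 30],
  [2, 3, 0, 1, 4, 6, 5, 7, 10, 11, 8, 9, 14, 15, 12, 13, 16, 18, 17, 19, 22, 23, 20, 21, 24, 26, 25, 27, 28, 30, 29, 31],
  [0, 8, 4, 5, 2, 3, 10, 11, 1, 9, 6, 7, 12, 20, 16, 17, 14, 15, 22, 23, 13, 21, 18, 19, 24, 25, 28, 29, 26, 27, 30, 31],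
  [0, 1, 2, 3, 24, 25, 26, 27, 12, 13, 14, 15, 8, 9, 10, 11, 28, 29, 30, 31, 20, 21, 22, 23, 4, 5, 6, 7, 16, 17, 18, 19]]
def ST : List (List ℕ) := [[2, 3, 0, 1, 6, 7, 4, 5, 10, 11, 8, 9, 12, 13, 14, 15, 16, 17, 18, 19, 20, 21, 22, 23],
  [0, 2, 1, 3, 12, 13, 14, 15, 16, 17, 18, 19, 4, 5, 6, 7, 8, 9, 10, 11, 20, 21, 22, 23],
  [4, 5, 6, 7, 0, 1, 2, 3, 8, 9, 10, 11, 12, 14, 13, 15, 20, 21, 22, 23, 16, 17, 18, 19],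
  [0, 1, 2, 3, 8, 9, 10, 11, 4, 5, 6, 7, 16, 17, 18, 19, 12, 13, 14, 15, 20, 22, 21, 23]]
def SF : List (List ℕ) := [[1, 0, 2, 3, 4, 5, 6, 7],
  [2, 3, 0, 1, 4, 5, 6, 7],
  [0, 1, 4, 5, 2, 3, 6, 7],
  [0, 1, 2, 3, 6, 7, 4, 5]]
def WE : List (List ℕ) := [[],
  [1, 0, 1],
  [1],
  [1, 0],
  [1, 2],
  [1, 0, 2],
  [1, 0, 2, 1],
  [1, 0, 2, 1, 0],
  [1, 0, 1, 2],
  [1, 0, 1, 2, 1, 0, 1],
  [1, 0, 1, 2, 1],
  [1, 0, 1, 2, 1, 0],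
  [1, 0, 1, 2, 3],
  [1, 0, 1, 2, 1, 0, 1, 3],
  [1, 0, 1, 2, 1, 3],
  [1, 0, 1, 2, 1, 0, 3],
  [1, 0, 1, 2, 1, 3, 2],
  [1, 0, 1, 2, 1, 0, 3, 2],
  [1, 0, 1, 2, 1, 0, 3, 2, 1],
  [1, 0, 1, 2, 1, 0, 3, 2, 1, 0],
  [1, 0, 1, 2, 1, 0, 1, 3, 2],
  [1, 0, 1, 2, 1, 0, 1, 3, 2, 1, 0, 1],
  [1, 0, 1, 2, 1, 0, 1, 3, 2, 1],
  [1, 0, 1, 2, 1, 0, 1, 3, 2, 1, 0],
  [1, 2, 3],
  [1, 0, 2, 3],
  [1, 0, 2, 1, 3],
  [1, 0, 2, 1, 0, 3],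
  [1, 0, 2, 1, 3, 2],
  [1, 0, 2, 1, 0, 3, 2],
  [1, 0, 2, 1, 0, 3, 2, 1],
  [1, 0, 2, 1, 0, 3, 2, 1, 0]]
def WT : List (List ℕ) := [[2, 1, 3, 2],
  [2, 1, 3, 2, 1, 0, 1],
  [2, 1, 0, 3, 2],
  [2, 1, 0, 3, 2, 1, 0, 1],
  [2, 1, 3],
  [2, 1, 3, 2, 1, 0, 1, 2],
  [2, 1, 0, 3],
  [2, 1, 0, 3, 2, 1, 0, 1, 2],
  [2, 1],
  [2, 1, 3, 2, 1, 0, 1, 2, 3],
  [2, 1, 0],
  [2, 1, 0, 3, 2, 1, 0, 1, 2, 3],
  [2, 3],
  [2, 3, 2, 1, 0, 1, 2],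
  [2, 1, 0, 1, 3],
  [2, 1, 0, 1, 3, 2, 1, 0, 1, 2],
  [2],
  [2, 3, 2, 1, 0, 1, 2, 3],
  [2, 1, 0, 1],
  [2, 1, 0, 1, 3, 2, 1, 0, 1, 2, 3],
  [],
  [3, 2, 1, 0, 1, 2, 3],
  [2, 1, 0, 1, 2],
  [2, 1, 0, 1, 2, 3, 2, 1, 0, 1, 2, 3]]
def WB : List (List ℕ) := [[2, 1],
  [1, 0, 1, 2, 1],
  [1, 2, 1],
  [1, 0, 2, 1],
  [2, 1, 0, 1, 2, 3, 2, 1],
  [1, 0, 1, 2, 1, 0, 1, 2, 3, 2, 1],
  [1, 2, 1, 0, 1, 2, 3, 2, 1],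
  [1, 0, 2, 1, 0, 1, 2, 3, 2, 1],
  [2, 1, 3],
  [1, 0, 1, 2, 1, 3],
  [1, 2, 1, 3],
  [1, 0, 2, 1, 3],
  [2, 1, 0, 1, 3, 2, 1],
  [1, 0, 1, 2, 1, 0, 1, 3, 2, 1],
  [1, 2, 1, 0, 1, 3, 2, 1],
  [1, 0, 2, 1, 0, 1, 3, 2, 1],
  [2, 1, 3, 2],
  [1, 0, 1, 2, 1, 3, 2],
  [1, 2, 1, 3, 2],
  [1, 0, 2, 1, 3, 2],
  [2, 1, 0, 3, 2, 1],
  [1, 0, 1, 2, 1, 0, 3, 2, 1],
  [1, 2, 1, 0, 3, 2, 1],
  [1, 0, 2, 1, 0, 3, 2, 1],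
  [3, 2, 1],
  [0, 3, 2, 1],
  [0, 1, 3, 2, 1],
  [0, 1, 0, 3, 2, 1],
  [2, 1, 0],
  [1, 0, 1, 2, 1, 0],
  [1, 2, 1, 0],
  [1, 0, 2, 1, 0],
  [2, 1, 0, 1, 2, 3, 2, 1, 0],
  [1, 0, 1, 2, 1, 0, 1, 2, 3, 2, 1, 0],
  [1, 2, 1, 0, 1, 2, 3, 2, 1, 0],
  [1, 0, 2, 1, 0, 1, 2, 3, 2, 1, 0],
  [2, 1, 0, 3],
  [1, 0, 1, 2, 1, 0, 3],
  [1, 2, 1, 0, 3],
  [1, 0, 2, 1, 0, 3],
  [2, 1, 0, 1, 3, 2, 1, 0],
  [1, 0, 1, 2, 1, 0, 1, 3, 2, 1, 0],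
  [1, 2, 1, 0, 1, 3, 2, 1, 0],
  [1, 0, 2, 1, 0, 1, 3, 2, 1, 0],
  [2, 1, 0, 3, 2],
  [1, 0, 1, 2, 1, 0, 3, 2],
  [1, 2, 1, 0, 3, 2],
  [1, 0, 2, 1, 0, 3, 2],
  [2, 1, 0, 3, 2, 1, 0],
  [1, 0, 1, 2, 1, 0, 3, 2, 1, 0],
  [1, 2, 1, 0, 3, 2, 1, 0],
  [1, 0, 2, 1, 0, 3, 2, 1, 0],
  [3, 2, 1, 0],
  [0, 3, 2, 1, 0],
  [0, 1, 3, 2, 1, 0],
  [0, 1, 0, 3, 2, 1, 0],
  [2],
  [1, 0, 1, 2],
  [1, 2],
  [1, 0, 2],
  [2, 1, 0, 1, 2, 3, 2],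
  [1, 0, 1, 2, 1, 0, 1, 2, 3, 2],
  [1, 2, 1, 0, 1, 2, 3, 2],
  [1, 0, 2, 1, 0, 1, 2, 3, 2],
  [2, 3],
  [1, 0, 1, 2, 3],
  [1, 2, 3],
  [1, 0, 2, 3],
  [2, 1, 0, 1, 3, 2],
  [1, 0, 1, 2, 1, 0, 1, 3, 2],
  [1, 2, 1, 0, 1, 3, 2],
  [1, 0, 2, 1, 0, 1, 3, 2],
  [3, 2],
  [0, 3, 2],
  [0, 1, 3, 2],
  [0, 1, 0, 3, 2],
  [2, 1, 0, 1],
  [1, 0, 1, 2, 1, 0, 1],
  [1, 2, 1, 0, 1],
  [1, 0, 2, 1, 0, 1],
  [2, 1, 0, 1, 2, 3, 2, 1, 0, 1],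
  [1, 0, 1, 2, 1, 0, 1, 2, 3, 2, 1, 0, 1],
  [1, 2, 1, 0, 1, 2, 3, 2, 1, 0, 1],
  [1, 0, 2, 1, 0, 1, 2, 3, 2, 1, 0, 1],
  [2, 1, 0, 1, 3],
  [1, 0, 1, 2, 1, 0, 1, 3],
  [1, 2, 1, 0, 1, 3],
  [1, 0, 2, 1, 0, 1, 3],
  [2, 1, 0, 1, 3, 2, 1, 0, 1],
  [1, 0, 1, 2, 1, 0, 1, 3, 2, 1, 0, 1],
  [1, 2, 1, 0, 1, 3, 2, 1, 0, 1],
  [1, 0, 2, 1, 0, 1, 3, 2, 1, 0, 1],
  [3, 2, 1, 0, 1],
  [0, 3, 2, 1, 0, 1],
  [0, 1, 3, 2, 1, 0, 1],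
  [0, 1, 0, 3, 2, 1, 0, 1],
  [],
  [1, 0, 1],
  [1],
  [1, 0],
  [2, 1, 0, 1, 2, 3],
  [1, 0, 1, 2, 1, 0, 1, 2, 3],
  [1, 2, 1, 0, 1, 2, 3],
  [1, 0, 2, 1, 0, 1, 2, 3],
  [3],
  [0, 3],
  [0, 1, 3],
  [0, 1, 0, 3],
  [2, 1, 0, 1, 2],
  [1, 0, 1, 2, 1, 0, 1, 2],
  [1, 2, 1, 0, 1, 2],
  [1, 0, 2, 1, 0, 1, 2],
  [2, 1, 0, 1, 2, 3, 2, 1, 0, 1, 2],
  [1, 0, 1, 2, 1, 0, 1, 2, 3, 2, 1, 0, 1, 2],
  [1, 2, 1, 0, 1, 2, 3, 2, 1, 0, 1, 2],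
  [1, 0, 2, 1, 0, 1, 2, 3, 2, 1, 0, 1, 2],
  [3, 2, 1, 0, 1, 2],
  [0, 3, 2, 1, 0, 1, 2],
  [0, 1, 3, 2, 1, 0, 1, 2],
  [0, 1, 0, 3, 2, 1, 0, 1, 2],
  [0],
  [0, 1],
  [0, 1, 0],
  [3, 2, 1, 0, 1, 2, 3],
  [0, 3, 2, 1, 0, 1, 2, 3],
  [0, 1, 3, 2, 1, 0, 1, 2, 3],
  [0, 1, 0, 3, 2, 1, 0, 1, 2, 3]]

def R32 : List ℕ := List.range 32

/-- pattern of facet number `f` -/
def fp (w : ℕ → Bool) (f : ℕ) : ℕ := extF w (FL.getD f [])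

def term (w : ℕ → Bool) (i : ℕ) : ℤ := Kz (extF w (TL.getD i ([], [])).1) (extF w (TL.getD i ([], [])).2)

def Phi (w : ℕ → Bool) : ℤ :=
  ∑ i ∈ Finset.range 24, term w i + 98304 * ∑ e ∈ Finset.range 32, ((w e).toNat : ℤ)

theorem FL_len : ∀ f < 8, (FL.getD f []).length = 12 := by decide

theorem fp_lt (w : ℕ → Bool) (f : ℕ) (hf : f < 8) : fp w f < 4096 := by
  have := extF_lt w (FL.getD f [])
  rw [FL_len f hf] at this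
  exact this

theorem job_all (r k : ℕ) (hr : r ≤ 34) (hk : k ∈ R16) : job (r, k) = true := by
  have h1 : ∀ j ∈ seg0 ++ seg1 ++ seg2 ++ seg3 ++ seg4 ++ seg5 ++ seg6 ++ seg7 ++ seg8 ++ seg9 ++ seg10 ++ seg11 ++ seg12 ++ seg13 ++ seg14 ++ seg15 ++ seg16 ++ seg17 ++ seg18 ++ seg19 ++ seg20 ++ seg21 ++ seg22 ++ seg23 ++ seg24 ++ seg25 ++ seg26 ++ seg27 ++ seg28 ++ seg29 ++ seg30 ++ seg31 ++ seg32 ++ seg33 ++ seg34 ++ seg35 ++ seg36 ++ seg37 ++ seg38 ++ seg39 ++ seg40 ++ seg41 ++ seg42 ++ seg43 ++ seg44 ++ seg45, job j = true := by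
    simp only [List.forall_mem_append]
    refine ⟨⟨⟨⟨⟨⟨⟨⟨⟨⟨⟨⟨⟨⟨⟨⟨⟨⟨⟨⟨⟨⟨⟨⟨⟨⟨⟨⟨⟨⟨⟨⟨⟨⟨⟨⟨⟨⟨⟨⟨⟨⟨⟨⟨⟨?_, ?_⟩, ?_⟩, ?_⟩, ?_⟩, ?_⟩, ?_⟩, ?_⟩, ?_⟩, ?_⟩, ?_⟩, ?_⟩, ?_⟩, ?_⟩, ?_⟩, ?_⟩, ?_⟩, ?_⟩, ?_⟩, ?_⟩, ?_⟩, ?_⟩, ?_⟩, ?_⟩, ?_⟩, ?_⟩, ?_⟩, ?_⟩, ?_⟩, ?_⟩, ?_⟩, ?_⟩, ?_⟩, ?_⟩, ?_⟩, ?_⟩, ?_⟩, ?_⟩, ?_⟩, ?_⟩, ?_⟩, ?_⟩, ?_⟩, ?_⟩, ?_⟩, ?_⟩
    exacts [(allL_iff _ _).1 seg0_ok, (allL_iff _ _).1 seg1_ok, (allL_iff _ _).1 seg2_ok, (allL_iff _ _).1 seg3_ok, (allL_iff _ _).1 seg4_ok, (allL_iff _ _).1 seg5_ok, (allL_iff _ _).1 seg6_ok, (allL_iff _ _).1 seg7_ok, (allL_iff _ _).1 seg8_ok, (allL_iff _ _).1 seg9_ok, (allL_iff _ _).1 seg10_ok, (allL_iff _ _).1 seg11_ok, (allL_iff _ _).1 seg12_ok, (allL_iff _ _).1 seg13_ok, (allL_iff _ _).1 seg14_ok, (allL_iff _ _).1 seg15_ok, (allL_iff _ _).1 seg16_ok, (allL_iff _ _).1 seg17_ok, (allL_iff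 _ _).1 seg18_ok, (allL_iff _ _).1 seg19_ok, (allL_iff _ _).1 seg20_ok, (allL_iff _ _).1 seg21_ok, (allL_iff _ _).1 seg22_ok, (allL_iff _ _).1 seg23_ok, (allL_iff _ _).1 seg24_ok, (allL_iff _ _).1 seg25_ok, (allL_iff _ _).1 seg26_ok, (allL_iff _ _).1 seg27_ok, (allL_iff _ _).1 seg28_ok, (allL_iff _ _).1 seg29_ok, (allL_iff _ _).1 seg30_ok, (allL_iff _ _).1 seg31_ok, (allL_iff _ _).1 seg32_ok, (allL_iff _ _).1 seg33_ok, (allL_iff _ _).1 seg34_ok, (allL_iff _ _).1 seg35_ok, (allL_iff _ _).1 seg36_ok, (allL_iff _ _).1 seg37_ok, (allL_iff _ _).1 seg38_ok, (allL_iff _ _).1 seg39_ok, (allL_iff _ _).1 seg40_ok, (allL_iff _ _).1 seg41_ok, (allL_iff _ _).1 seg42_ok, (allL_iff _ _).1 seg43_ok, (allL_iff _ _).1 seg44_ok, (allL_iff _ _).1 seg45_ok]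
  have h2 : ∀ r < 35, ∀ k ∈ R16, (r, k) ∈ seg0 ++ seg1 ++ seg2 ++ seg3 ++ seg4 ++ seg5 ++ seg6 ++ seg7 ++ seg8 ++ seg9 ++ seg10 ++ seg11 ++ seg12 ++ seg13 ++ seg14 ++ seg15 ++ seg16 ++ seg17 ++ seg18 ++ seg19 ++ seg20 ++ seg21 ++ seg22 ++ seg23 ++ seg24 ++ seg25 ++ seg26 ++ seg27 ++ seg28 ++ seg29 ++ seg30 ++ seg31 ++ seg32 ++ seg33 ++ seg34 ++ seg35 ++ seg36 ++ seg37 ++ seg38 ++ seg39 ++ seg40 ++ seg41 ++ seg42 ++ seg43 ++ seg44 ++ seg45 := by decide +kernel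
  exact h1 _ (h2 r (by omega) k hk)

theorem kk_term (w : ℕ → Bool) (hw : ∀ f < 8, rk (fp w f) ≤ 62) (f ps f' ps' i : ℕ)
    (h1 : f < 8 ∧ f' < 8) (h2 : ps ∈ [0, 1, 2, 3, 4, 5] ∧ ps' ∈ [0, 1, 2, 3, 4, 5])
    (h3 : (∀ d ∈ DL.getD ps [], d < 12) ∧ ∀ d ∈ DL.getD ps' [], d < 12)
    (h4 : (TL.getD i ([], [])).1 = (DL.getD ps []).map fun d => (FL.getD f []).getD d 0)
    (h5 : (TL.getD i ([], [])).2 = (DL.getD ps' []).map fun d => (FL.getD f' []).getD d 0) :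
    (kk (uu (fp w f)) (uu (fp w f')) (8 + 32 * ps) (28 + 32 * ps') : ℤ) = term w i + 524288 := by
  obtain ⟨a1, a2, -⟩ := (good_facts _ (fp_lt w f h1.1) (hw f h1.1)).faces ps h2.1
  obtain ⟨b1, -, b3⟩ := (good_facts _ (fp_lt w f' h1.2) (hw f' h1.2)).faces ps' h2.2
  have e1 : ext (fp w f) (DL.getD ps []) = extF w (TL.getD i ([], [])).1 := by
    rw [h4]; exact ext_extF _ _ _ (by rw [FL_len f h1.1]; exact h3.1)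
  have e2 : ext (fp w f') (DL.getD ps' []) = extF w (TL.getD i ([], [])).2 := by
    rw [h5]; exact ext_extF _ _ _ (by rw [FL_len f' h1.2]; exact h3.2)
  rw [e1] at a1 a2
  rw [e2] at b1 b3
  unfold term Kz kk
  rw [if_pos ⟨a1, b1⟩, a2, b3]
  ring

theorem chk_sound (w : ℕ → Bool) (hw : ∀ f < 8, rk (fp w f) ≤ 62)
    (hmax : ∀ f < 8, rk (fp w f) ≤ rk (fp w 6)) (Bs : List (ℕ × ℕ))
    (hB : (fp w 7, uu (fp w 7)) ∈ Bs) (h : chk (fp w 6, uu (fp w 6)) Bs = true) : Phi w ≤ 1089648 := by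
  have eA : ∀ D : List ℕ, (∀ d ∈ D, d < 12) →
      ext (fp w 6) D = extF w (D.map fun d => (FL.getD 6 []).getD d 0) :=
    fun D hD => ext_extF _ _ _ hD
  have eB : ∀ D : List ℕ, (∀ d ∈ D, d < 12) →
      ext (fp w 7) D = extF w (D.map fun d => (FL.getD 7 []).getD d 0) :=
    fun D hD => ext_extF _ _ _ hD
  have pA : pop (fp w 6) R12 = cntF w (R12.map fun d => (FL.getD 6 []).getD d 0) :=
    pop_extF _ _ _ (by decide)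
  have pB : pop (fp w 7) R12 = cntF w (R12.map fun d => (FL.getD 7 []).getD d 0) :=
    pop_extF _ _ _ (by decide)
  have b24 := Bool.toNat_le (w 24)
  have b25 := Bool.toNat_le (w 25)
  have b26 := Bool.toNat_le (w 26)
  have b27 := Bool.toNat_le (w 27)
  have b28 := Bool.toNat_le (w 28)
  have b29 := Bool.toNat_le (w 29)
  have b30 := Bool.toNat_le (w 30)
  have b31 := Bool.toNat_le (w 31)
  have u0 : uu (fp w 0) = _ := uu_extF w [2, 10, 4, 6] [24, 26, 28, 30] [14, 22, 16, 18] rfl rfl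
  have u1 : uu (fp w 1) = _ := uu_extF w [3, 11, 5, 7] [25, 27, 29, 31] [15, 23, 17, 19] rfl rfl
  have u2 : uu (fp w 2) = _ := uu_extF w [0, 8, 4, 5] [24, 25, 28, 29] [12, 20, 16, 17] rfl rfl
  have u3 : uu (fp w 3) = _ := uu_extF w [1, 9, 6, 7] [26, 27, 30, 31] [13, 21, 18, 19] rfl rfl
  have u4 : uu (fp w 4) = _ := uu_extF w [0, 1, 2, 3] [24, 25, 26, 27] [12, 13, 14, 15] rfl rfl
  have u5 : uu (fp w 5) = _ := uu_extF w [8, 9, 10, 11] [28, 29, 30, 31] [20, 21, 22, 23] rfl rfl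
  unfold chk at h
  simp only [force_eq] at h
  rw [allL_iff] at h
  replace h := h _ hB
  unfold levB at h
  simp only [force_eq] at h
  replace h := gate_imp h (hmax 7 (by norm_num))
  rw [eA _ (by decide), eA _ (by decide), eA _ (by decide), eA _ (by decide), eA _ (by decide),
    eA _ (by decide), eB _ (by decide), eB _ (by decide), eB _ (by decide), eB _ (by decide),
    eB _ (by decide), eB _ (by decide), pA, pB, allL_iff] at h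
  have m0 : extF w [24, 25, 26, 27] ∈ R16 := by
    have := extF_lt w [24, 25, 26, 27]
    have h16 : ∀ c < 16, c ∈ R16 := by decide
    exact h16 _ this
  replace h := h _ m0
  unfold lev0 at h
  simp only [force_eq] at h
  erw [← u4] at h
  replace h := gate_imp h (hmax 4 (by norm_num))
  rw [allL_iff] at h
  have m1 : extF w [28, 29] ∈ [0, 1, 2, 3] := by
    have := extF_lt w [28, 29]
    have h4 : ∀ c < 4, c ∈ [0, 1, 2, 3] := by decide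
    exact h4 _ this
  replace h := h _ m1
  unfold lev1 at h
  simp only [force_eq] at h
  have c2 : Nat.add (Nat.mod (extF w [24, 25, 26, 27]) 4) (Nat.mul 4 (extF w [28, 29])) =
      extF w [24, 25, 28, 29] := by
    show extF w [24, 25, 26, 27] % 4 + 4 * extF w [28, 29] = _
    simp only [extF]; omega
  rw [c2] at h
  erw [← u2] at h
  replace h := gate_imp h (hmax 2 (by norm_num))
  rw [allL_iff] at h
  have h2 : ∀ c ≤ 1, c ∈ [0, 1] := by decide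
  replace h := h _ (h2 _ b30)
  unfold lev2 at h
  simp only [force_eq] at h
  have c0 : Nat.add (Nat.add (Nat.mod (extF w [24, 25, 26, 27]) 2)
      (Nat.mul 2 (fld (extF w [24, 25, 26, 27]) 2 2)))
      (Nat.add (Nat.mul 4 (Nat.mod (extF w [28, 29]) 2)) (Nat.mul 8 (w 30).toNat)) =
      extF w [24, 26, 28, 30] := by
    rw [fld_def]
    show extF w [24, 25, 26, 27] % 2 + 2 * (extF w [24, 25, 26, 27] / 2 ^ 2 % 2) +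
      (4 * (extF w [28, 29] % 2) + 8 * (w 30).toNat) = _
    simp only [extF]; omega
  rw [c0] at h
  erw [← u0] at h
  replace h := gate_imp h (hmax 0 (by norm_num))
  rw [allL_iff] at h
  replace h := h _ (h2 _ b31)
  unfold lev3 at h
  simp only [force_eq] at h
  have c5 : Nat.add (extF w [28, 29]) (Nat.add (Nat.mul 4 (w 30).toNat) (Nat.mul 8 (w 31).toNat)) =
      extF w [28, 29, 30, 31] := by
    show extF w [28, 29] + (4 * (w 30).toNat + 8 * (w 31).toNat) = _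
    simp only [extF]; omega
  have c3 : Nat.add (Nat.div (extF w [24, 25, 26, 27]) 4)
      (Nat.add (Nat.mul 4 (w 30).toNat) (Nat.mul 8 (w 31).toNat)) = extF w [26, 27, 30, 31] := by
    show extF w [24, 25, 26, 27] / 4 + (4 * (w 30).toNat + 8 * (w 31).toNat) = _
    simp only [extF]; omega
  have c1 : Nat.add (Nat.add (fld (extF w [24, 25, 26, 27]) 1 2)
      (Nat.mul 2 (Nat.div (extF w [24, 25, 26, 27]) 8)))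
      (Nat.add (Nat.mul 4 (Nat.div (extF w [28, 29]) 2)) (Nat.mul 8 (w 31).toNat)) =
      extF w [25, 27, 29, 31] := by
    rw [fld_def]
    show extF w [24, 25, 26, 27] / 2 ^ 1 % 2 + 2 * (extF w [24, 25, 26, 27] / 8) +
      (4 * (extF w [28, 29] / 2) + 8 * (w 31).toNat) = _
    simp only [extF]; omega
  rw [c5, c3, c1] at h
  erw [← u5, ← u3, ← u1] at h
  replace h := gate_imp h (hmax 5 (by norm_num))
  replace h := gate_imp h (hmax 3 (by norm_num))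
  replace h := gate_imp h (hmax 1 (by norm_num))
  have p0 : pop (extF w [24, 25, 26, 27]) [0, 1, 2, 3] = cntF w [24, 25, 26, 27] :=
    pop_extF _ _ _ (by decide)
  have p1 : pop (extF w [28, 29]) [0, 1] = cntF w [28, 29] := pop_extF _ _ _ (by decide)
  rw [p0, p1] at h
  replace h := Nat.le_of_ble_eq_true h
  simp only [Nat.add_eq, Nat.mul_eq] at h
  have k0 := kk_term w hw 0 0 2 0 0 (by decide) (by decide) (by decide) (by decide) (by decide)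
  have k1 := kk_term w hw 0 1 3 0 1 (by decide) (by decide) (by decide) (by decide) (by decide)
  have k2 := kk_term w hw 1 0 2 1 2 (by decide) (by decide) (by decide) (by decide) (by decide)
  have k3 := kk_term w hw 1 1 3 1 3 (by decide) (by decide) (by decide) (by decide) (by decide)
  have k4 := kk_term w hw 0 2 4 0 4 (by decide) (by decide) (by decide) (by decide) (by decide)
  have k5 := kk_term w hw 0 3 5 0 5 (by decide) (by decide) (by decide) (by decide) (by decide)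
  have k6 := kk_term w hw 1 2 4 1 6 (by decide) (by decide) (by decide) (by decide) (by decide)
  have k7 := kk_term w hw 1 3 5 1 7 (by decide) (by decide) (by decide) (by decide) (by decide)
  have k8 := kk_term w hw 0 4 6 0 8 (by decide) (by decide) (by decide) (by decide) (by decide)
  have k9 := kk_term w hw 0 5 7 0 9 (by decide) (by decide) (by decide) (by decide) (by decide)
  have k10 := kk_term w hw 1 4 6 1 10 (by decide) (by decide) (by decide) (by decide) (by decide)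
  have k11 := kk_term w hw 1 5 7 1 11 (by decide) (by decide) (by decide) (by decide) (by decide)
  have k12 := kk_term w hw 2 2 4 2 12 (by decide) (by decide) (by decide) (by decide) (by decide)
  have k13 := kk_term w hw 2 3 5 2 13 (by decide) (by decide) (by decide) (by decide) (by decide)
  have k14 := kk_term w hw 3 2 4 3 14 (by decide) (by decide) (by decide) (by decide) (by decide)
  have k15 := kk_term w hw 3 3 5 3 15 (by decide) (by decide) (by decide) (by decide) (by decide)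
  have k16 := kk_term w hw 2 4 6 2 16 (by decide) (by decide) (by decide) (by decide) (by decide)
  have k17 := kk_term w hw 2 5 7 2 17 (by decide) (by decide) (by decide) (by decide) (by decide)
  have k18 := kk_term w hw 3 4 6 3 18 (by decide) (by decide) (by decide) (by decide) (by decide)
  have k19 := kk_term w hw 3 5 7 3 19 (by decide) (by decide) (by decide) (by decide) (by decide)
  have k20 := kk_term w hw 4 4 6 4 20 (by decide) (by decide) (by decide) (by decide) (by decide)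
  have k21 := kk_term w hw 4 5 7 4 21 (by decide) (by decide) (by decide) (by decide) (by decide)
  have k22 := kk_term w hw 5 4 6 5 22 (by decide) (by decide) (by decide) (by decide) (by decide)
  have k23 := kk_term w hw 5 5 7 5 23 (by decide) (by decide) (by decide) (by decide) (by decide)
  have q6 : cntF w (R12.map fun d => (FL.getD 6 []).getD d 0) =
      cntF w [0, 1, 2, 3, 4, 5, 6, 7, 8, 9, 10, 11] := rfl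
  have q7 : cntF w (R12.map fun d => (FL.getD 7 []).getD d 0) =
      cntF w [12, 13, 14, 15, 16, 17, 18, 19, 20, 21, 22, 23] := rfl
  rw [q6, q7] at h
  simp only [cntF] at h
  unfold Phi
  simp only [Finset.sum_range_succ, Finset.sum_range_zero]
  norm_num at k0 k1 k2 k3 k4 k5 k6 k7 k8 k9 k10 k11 k12 k13 k14 k15 k16 k17 k18 k19 k20 k21 k22 k23
  zify at h
  linarith

end

end Pool.Agent.HexCube
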