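import Pool.Agent.Lib.MP_b9b223_co.Basic
import Pool.Agent.Lib.MP_b9b223_co.Run2
import Pool.Agent.Lib.MP_b9b223_co.Run3
import Pool.Agent.Lib.MP_b9b223_co.Run4
import Pool.Agent.Lib.MP_b9b223_co.Run5

set_option autoImplicit false
set_option maxRecDepth 100000

namespace Pool.Agent.HexCube

noncomputable section

theorem okF_all (F : ℕ) (h : F < 4096) : okF F = true := by
  by_cases h1 : F < 1024
  · exact allN_imp _ _ _ okF0 F (by omega) (by omega)
  by_cases h2 : F < 2048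
  · exact allN_imp _ _ _ okF1 F (by omega) (by omega)
  by_cases h3 : F < 3072
  · exact allN_imp _ _ _ okF2 F (by omega) (by omega)
  · exact allN_imp _ _ _ okF3 F (by omega) (by omega)

theorem rk_inv (F : ℕ) (h : F < 4096) :
    rk (ext F G0) = rk F ∧ rk (ext F G1) = rk F ∧ rk (ext F G2) = rk F := by
  have := okF_all F h
  unfold okF at this
  rw [force_eq] at this
  simp only [Bool.and_eq_true, Nat.beq_eq] at this
  exact ⟨this.1.1.1, this.1.1.2, this.1.2⟩

theorem bad_forb (F : ℕ) (h : F < 4096) (hr : ¬ rk F ≤ 62) : ∃ s ∈ forb, ∀ e ∈ s, fld F e 2 = 1 := by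
  have := okF_all F h
  unfold okF at this
  rw [force_eq] at this
  have hb : Nat.ble (rk F) 62 = false := by
    cases hh : Nat.ble (rk F) 62
    · rfl
    · exact absurd (Nat.le_of_ble_eq_true hh) hr
  rw [hb] at this
  simp only [Bool.and_eq_true, anyL_iff, allL_iff, Nat.beq_eq] at this
  exact this.2

structure GoodFacts (F : ℕ) : Prop where
  le34 : rk F ≤ 34
  faces : ∀ ps ∈ [0, 1, 2, 3, 4, 5], rk (ext F (DL.getD ps [])) ≤ 62 ∧
    fld (uu F) (8 + 32 * ps) 1048576 = rowF (ext F (DL.getD ps [])) ∧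
    fld (uu F) (28 + 32 * ps) 4096 = colF (ext F (DL.getD ps []))
  piece : ∃ k ∈ R16, (F, uu F) ∈ pieces.getD k []
  rep : reps.getD (rk F) (0, 0) = (F, uu F) ∨ nu (ext F G0) < nu F ∨ nu (ext F G1) < nu F ∨
    nu (ext F G2) < nu F
  vec : ∃ x ∈ vecsOf (bsig (F % 16)), x.1 = rowF F ∧ x.2.1 = colF F
  quad : (rowF F, colF F, rowF (ext F G0), colF (ext F G0), rowF (ext F G1), colF (ext F G1)) ∈
    quads.getD (F % 16) []

theorem good_facts (F : ℕ) (h : F < 4096) (hr : rk F ≤ 62) : GoodFacts F := by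
  have := okF_all F h
  unfold okF at this
  rw [force_eq] at this
  have hb : Nat.ble (rk F) 62 = true := Nat.ble_eq_true_of_le hr
  rw [hb] at this
  simp only [Bool.and_eq_true, force_eq, anyL_iff, allL_iff, Nat.beq_eq, Nat.ble_eq, Bool.or_eq_true,
    Nat.blt_eq] at this
  obtain ⟨-, ⟨⟨⟨h1, h2⟩, h3⟩, h4⟩, h5, h6⟩ := this
  refine ⟨h1, fun ps hps => ?_, ?_, ?_, h5, ?_⟩
  · obtain ⟨⟨a, b⟩, c⟩ := h2 ps hps
    exact ⟨a, b, c⟩
  · obtain ⟨k, hk, p, hp, e1, e2⟩ := h3
    refine ⟨k, hk, ?_⟩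
    have : p = (F, uu F) := Prod.ext e1 e2
    rwa [← this]
  · rcases h4 with ((⟨a, b⟩ | a) | a) | a
    · exact Or.inl (Prod.ext a b)
    · exact Or.inr (Or.inl a)
    · exact Or.inr (Or.inr (Or.inl a))
    · exact Or.inr (Or.inr (Or.inr a))
  · obtain ⟨x, hx, ⟨⟨⟨⟨e1, e2⟩, e3⟩, e4⟩, e5⟩, e6⟩ := h6
    have : x = (rowF F, colF F, rowF (ext F G0), colF (ext F G0), rowF (ext F G1), colF (ext F G1)) :=
      Prod.ext e1 (Prod.ext e2 (Prod.ext e3 (Prod.ext e4 (Prod.ext e5 e6))))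
    rw [← this]
    exact hx

/-- the positive semidefinite kernel of the certificate -/
def Kz (F F' : ℕ) : ℤ := if rk F ≤ 62 ∧ rk F' ≤ 62 then (kr (rowF F) (colF F') : ℤ) - 524288 else 0

theorem Kz_le (F F' : ℕ) : Kz F F' ≤ 524288 := by
  unfold Kz
  split_ifs
  · have : kr (rowF F) (colF F') < 1048576 := by
      unfold kr; rw [fld_def]; exact Nat.mod_lt _ (by norm_num)
    omega
  · norm_num

theorem okS_all (s : ℕ) (h : s < 16) : okS s = true := by
  interval_cases s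
  exacts [okS0, okS1, okS2, okS3, okS4, okS5, okS6, okS7, okS8, okS9, okS10, okS11, okS12, okS13,
    okS14, okS15]

theorem Kz_inv (F F' : ℕ) (h : F < 4096) (h' : F' < 4096) (e : F % 16 = F' % 16) :
    Kz (ext F G0) (ext F' G0) = Kz F F' ∧ Kz (ext F G1) (ext F' G1) = Kz F F' := by
  obtain ⟨a0, a1, -⟩ := rk_inv F h
  obtain ⟨b0, b1, -⟩ := rk_inv F' h'
  unfold Kz
  rw [a0, a1, b0, b1]
  by_cases hc : rk F ≤ 62 ∧ rk F' ≤ 62
  · simp only [if_pos hc]
    have q1 := (good_facts F h hc.1).quad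
    have q2 := (good_facts F' h' hc.2).quad
    rw [← e] at q2
    have := okS_all (F % 16) (Nat.mod_lt _ (by norm_num))
    unfold okS at this
    rw [allL_iff] at this
    have := (allL_iff _ _).1 (this _ q1) _ q2
    unfold okQ at this
    simp only [force_eq, Bool.and_eq_true, Nat.beq_eq] at this
    rw [← this.1, ← this.2]
    exact ⟨rfl, rfl⟩
  · simp only [if_neg hc, and_self]

theorem dot_cons (a b : ℕ) (v l : List ℕ) : dot (a :: v) (b :: l) = a * b + dot v l := rfl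

theorem dot_eq (r : ℕ) (v l : List ℕ) (hv : v.length = r) (hl : l.length = r) :
    ∑ t ∈ Finset.range r, ((v.getD t 0 : ℤ) - 1048576) * ((l.getD t 0 : ℤ) - 1048576) =
      (dot v l : ℤ) - 1048576 * ((v.sum : ℤ) + (l.sum : ℤ)) + r * 1048576 * 1048576 := by
  induction r generalizing v l with
  | zero =>
    rw [List.length_eq_zero_iff] at hv hl
    subst hv hl
    simp [dot]
  | succ r ih =>
    obtain ⟨a, v', rfl⟩ := List.exists_cons_of_length_eq_add_one hv
    obtain ⟨b, l', rfl⟩ := List.exists_cons_of_length_eq_add_one hl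
    rw [Finset.sum_range_succ']
    simp only [List.getD_cons_succ, List.getD_cons_zero, List.sum_cons, dot_cons]
    rw [ih v' l' (by simpa using hv) (by simpa using hl)]
    push_cast
    ring

theorem dot_comm' (r : ℕ) (v l : List ℕ) (hv : v.length = r) (hl : l.length = r) :
    dot v l = dot l v := by
  have h1 := dot_eq r v l hv hl
  have h2 := dot_eq r l v hl hv
  have h3 : ∑ t ∈ Finset.range r, ((v.getD t 0 : ℤ) - 1048576) * ((l.getD t 0 : ℤ) - 1048576) =
      ∑ t ∈ Finset.range r, ((l.getD t 0 : ℤ) - 1048576) * ((v.getD t 0 : ℤ) - 1048576) :=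
    Finset.sum_congr rfl fun t _ => mul_comm _ _
  omega

theorem okB_all (s : ℕ) (h : s < 16) : okB (bsig s) = true := by
  interval_cases s
  exacts [okB1, okB2, okB2, okB0, okB2, okB3, okB3, okB0, okB2, okB3, okB3, okB0, okB0, okB0, okB0, okB0]

theorem block_facts (b : ℕ) (hb : okB b = true) (x y : ℕ × ℕ × ℕ × List ℕ) (hx : x ∈ vecsOf b)
    (hy : y ∈ vecsOf b) : kr x.1 y.2.1 = kr y.1 x.2.1 ∧
    ∑ t ∈ Finset.range (lenOf b), ((x.2.2.2.getD t 0 : ℤ) - 1048576) * ((y.2.2.2.getD t 0 : ℤ) - 1048576)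
      ≤ 1048576 * ((kr x.1 y.2.1 : ℤ) - 524288) := by
  unfold okB at hb
  simp only [Bool.and_eq_true, allL_iff, Nat.beq_eq] at hb
  obtain ⟨h1, h2⟩ := hb
  obtain ⟨lx, sx⟩ := h1 x hx
  obtain ⟨ly, sy⟩ := h1 y hy
  rw [dot_eq _ _ _ lx ly, sx, sy]
  have hc := dot_comm' _ _ _ lx ly
  rcases pairsOK_imp _ _ h2 x hx y hy with h | h
  · unfold okP at h
    simp only [force_eq, Bool.and_eq_true, Nat.beq_eq, Nat.ble_eq, Nat.add_eq, Nat.mul_eq] at h
    refine ⟨h.1, ?_⟩
    have := h.2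
    zify at this
    linarith
  · unfold okP at h
    simp only [force_eq, Bool.and_eq_true, Nat.beq_eq, Nat.ble_eq, Nat.add_eq, Nat.mul_eq] at h
    refine ⟨h.1.symm, ?_⟩
    have := h.2
    rw [h.1, ← hc] at this
    zify at this
    linarith

theorem Kz_symm (F F' : ℕ) (h : F < 4096) (h' : F' < 4096) (e : F % 16 = F' % 16) :
    Kz F F' = Kz F' F := by
  unfold Kz
  by_cases hc : rk F ≤ 62 ∧ rk F' ≤ 62
  · rw [if_pos hc, if_pos hc.symm]
    obtain ⟨x, hx, x1, x2⟩ := (good_facts F h hc.1).vec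
    obtain ⟨y, hy, y1, y2⟩ := (good_facts F' h' hc.2).vec
    rw [← e] at hy
    have := (block_facts _ (okB_all _ (Nat.mod_lt F (by norm_num))) x y hx hy).1
    rw [← x1, ← x2, ← y1, ← y2, this]
  · rw [if_neg hc, if_neg (fun h => hc h.symm)]

theorem Kz_psd {ι : Type} [Fintype ι] (F : ι → ℕ) (s : ℕ) (h : ∀ k, F k < 4096) (e : ∀ k, F k % 16 = s) :
    0 ≤ ∑ k, ∑ l, Kz (F k) (F l) := by
  classical
  rcases isEmpty_or_nonempty ι with hι | ⟨⟨k0⟩⟩
  · simp
  have hs : s < 16 := by rw [← e k0]; exact Nat.mod_lt _ (by norm_num)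
  have hex : ∀ k, ∃ x : ℕ × ℕ × ℕ × List ℕ, rk (F k) ≤ 62 →
      x ∈ vecsOf (bsig s) ∧ x.1 = rowF (F k) ∧ x.2.1 = colF (F k) := by
    intro k
    by_cases hc : rk (F k) ≤ 62
    · obtain ⟨x, hx, x1, x2⟩ := (good_facts _ (h k) hc).vec
      rw [e k] at hx
      exact ⟨x, fun _ => ⟨hx, x1, x2⟩⟩
    · exact ⟨(0, 0, 0, []), fun hh => absurd hh hc⟩
  choose x hx using hex
  set z : ι → ℕ → ℤ := fun k t => if rk (F k) ≤ 62 then ((x k).2.2.2.getD t 0 : ℤ) - 1048576 else 0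
    with hz
  have key : ∀ k l, ∑ t ∈ Finset.range (lenOf (bsig s)), z k t * z l t ≤ 1048576 * Kz (F k) (F l) := by
    intro k l
    unfold Kz
    by_cases hk : rk (F k) ≤ 62
    · by_cases hl : rk (F l) ≤ 62
      · obtain ⟨a1, a2, -⟩ := hx k hk
        obtain ⟨b1, -, b3⟩ := hx l hl
        have := (block_facts _ (okB_all _ hs) _ _ a1 b1).2
        rw [a2, b3] at this
        simp only [hz, if_pos hk, if_pos hl, if_pos (And.intro hk hl)]
        exact this
      · simp [hz, hl]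
    · simp [hz, hk]
  have h1 : ∑ k, ∑ l, ∑ t ∈ Finset.range (lenOf (bsig s)), z k t * z l t ≤
      ∑ k, ∑ l, 1048576 * Kz (F k) (F l) :=
    Finset.sum_le_sum fun k _ => Finset.sum_le_sum fun l _ => key k l
  have h2 : ∑ k, ∑ l, ∑ t ∈ Finset.range (lenOf (bsig s)), z k t * z l t =
      ∑ t ∈ Finset.range (lenOf (bsig s)), (∑ k, z k t) * (∑ k, z k t) := by
    simp only [Finset.sum_mul_sum]
    rw [Finset.sum_comm (s := Finset.range _)]
    refine Finset.sum_congr rfl fun k _ => ?_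
    rw [Finset.sum_comm]
  have h3 : 0 ≤ ∑ t ∈ Finset.range (lenOf (bsig s)), (∑ k, z k t) * (∑ k, z k t) :=
    Finset.sum_nonneg fun t _ => mul_self_nonneg _
  simp only [← Finset.mul_sum] at h1
  omega

end

end Pool.Agent.HexCube
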